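import Pool.Agent.N375.AV.D
import Pool.Agent.N760.IT.C
import Pool.Agent.R482.ST.Star

/-!
# Sparse sets of exceptions are avoided by the windows around the values of arithmetic functions, uniformly in the sets
-/

set_option autoImplicit false

open Finset Filter

namespace Pool.Agent.J6H45.WF

open Pool.Agent.N733.TG (LM Expanding NearG)
open Pool.Agent.N375.AV (PD comp)
open Pool.Agent.N760.IT (orb Few densW)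

open Classical in
/-- All natural numbers `n ≤ X` but `C X ^ s` are good. -/
def Sparse (C s : ℝ) (Good : ℕ → Prop) : Prop :=
  ∀ X : ℕ, 1 ≤ X → (((Icc 1 X).filter fun n => ¬ Good n).card : ℝ) ≤ C * (X : ℝ) ^ s

/-- All natural numbers at distance at most `v ^ κ` from `G v` are good. -/
def NearV (G : ℕ → ℝ) (κ : ℝ) (Good : ℕ → Prop) (v : ℕ) : Prop :=
  ∀ n : ℕ, 1 ≤ n → |(n : ℝ) - G v| ≤ (v : ℝ) ^ κ → Good n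

lemma sparse_set {C s : ℝ} (hs : 0 ≤ s) {Good : ℕ → Prop} (h : Sparse C s Good) :
    ∀ X : ℝ, 1 ≤ X → {t | t ∈ {n : ℕ | 1 ≤ n ∧ ¬ Good n} ∧ (t : ℝ) ≤ X}.Finite ∧
      (({t | t ∈ {n : ℕ | 1 ≤ n ∧ ¬ Good n} ∧ (t : ℝ) ≤ X}.ncard : ℕ) : ℝ) ≤ |C| * X ^ s := by
  classical
  intro X hX
  have hX1 : 1 ≤ ⌊X⌋₊ := Nat.le_floor (by exact_mod_cast hX)
  have hsub : {t | t ∈ {n : ℕ | 1 ≤ n ∧ ¬ Good n} ∧ (t : ℝ) ≤ X} ⊆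
      (((Icc 1 ⌊X⌋₊).filter fun n => ¬ Good n : Finset ℕ) : Set ℕ) := by
    rintro t ⟨⟨h1, h2⟩, h3⟩
    rw [mem_coe, mem_filter, mem_Icc]
    exact ⟨⟨h1, Nat.le_floor h3⟩, h2⟩
  refine ⟨(finite_toSet _).subset hsub, ?_⟩
  have h2 := Set.ncard_le_ncard hsub (finite_toSet _)
  rw [Set.ncard_coe_finset] at h2
  have h3 : (((Icc 1 ⌊X⌋₊).filter fun n => ¬ Good n).card : ℝ) ≤ C * ((⌊X⌋₊ : ℕ) : ℝ) ^ s := by
    convert h ⌊X⌋₊ hX1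
  calc _ ≤ (((Icc 1 ⌊X⌋₊).filter fun n => ¬ Good n).card : ℝ) := by exact_mod_cast h2
    _ ≤ C * ((⌊X⌋₊ : ℕ) : ℝ) ^ s := h3
    _ ≤ |C| * ((⌊X⌋₊ : ℕ) : ℝ) ^ s := mul_le_mul_of_nonneg_right (le_abs_self _) (by positivity)
    _ ≤ |C| * X ^ s := mul_le_mul_of_nonneg_left
        (Real.rpow_le_rpow (Nat.cast_nonneg _) (Nat.floor_le (by linarith)) hs) (abs_nonneg _)

lemma near_of_not {G : ℕ → ℝ} {κ : ℝ} {Good : ℕ → Prop} {v : ℕ} (h : ¬ NearV G κ Good v) :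
    ∃ t ∈ {n : ℕ | 1 ≤ n ∧ ¬ Good n}, |(t : ℝ) - G v| ≤ (v : ℝ) ^ κ := by
  unfold NearV at h
  push Not at h
  obtain ⟨n, h1, h2, h3⟩ := h
  exact ⟨n, ⟨h1, h3⟩, h2⟩

/-- **Values of multiplicative functions** -/
theorem mult {f : ℕ → ℕ} (hf : LM f) {G : ℕ → ℝ} {d : ℝ} (hG : Expanding G d) {s κ : ℝ} (hs : 0 ≤ s) (hκ : 0 ≤ κ)
    (h1 : d * s + κ < 1) (C : ℝ) (A : ℕ) :
    ∃ N₀ : ℕ, ∀ N : ℕ, N₀ ≤ N → ∀ Good : ℕ → Prop, Sparse C s Good →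
      ({m : ℕ | 1 ≤ m ∧ m ≤ N ∧ ¬ NearV G κ Good (f m)}.ncard : ℝ) ≤ N / Real.log N ^ A := by
  obtain ⟨N₀, hN₀⟩ := Pool.Agent.N375.MV.keep_windows_unif (fun n : ℕ => (n : ℝ)) hf hG hs hκ h1 |C| A
  refine ⟨N₀, fun N hN Good hGood => le_trans ?_ (hN₀ N hN {n : ℕ | 1 ≤ n ∧ ¬ Good n} (sparse_set hs hGood))⟩
  have hfin : {m : ℕ | 1 ≤ m ∧ m ≤ N ∧ ∃ t ∈ {n : ℕ | 1 ≤ n ∧ ¬ Good n}, |(t : ℝ) - G (f m)| ≤ (f m : ℝ) ^ κ}.Finite :=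
    (Set.finite_Icc 1 N).subset fun m hm => ⟨hm.1, hm.2.1⟩
  have hsub : {m : ℕ | 1 ≤ m ∧ m ≤ N ∧ ¬ NearV G κ Good (f m)} ⊆
      {m : ℕ | 1 ≤ m ∧ m ≤ N ∧ ∃ t ∈ {n : ℕ | 1 ≤ n ∧ ¬ Good n}, |(t : ℝ) - G (f m)| ≤ (f m : ℝ) ^ κ} :=
    fun m hm => ⟨hm.1, hm.2.1, near_of_not hm.2.2⟩
  exact_mod_cast Set.ncard_le_ncard hsub hfin

/-- **Values of compositions of additive functions** -/
theorem add (fs : List (ℕ → ℕ)) (hfs : ∀ f ∈ fs, PD f) {G : ℕ → ℝ} {d : ℝ} (hG : Expanding G d) {s κ : ℝ} (hs : 0 ≤ s)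
    (hκ : 0 ≤ κ) (h1 : d * s + κ < 1) (C : ℝ) :
    ∃ c K : ℝ, 0 < c ∧ ∀ Good : ℕ → Prop, Sparse C s Good → ∀ N : ℕ, 1 ≤ N →
      ({m : ℕ | 1 ≤ m ∧ m ≤ N ∧ ¬ NearV G κ Good (comp fs m)}.ncard : ℝ) ≤
        K * N * Real.exp (-(c * Real.log N ^ ((1 : ℝ) / (fs.length + 1)))) := by
  obtain ⟨c, K, hc, H⟩ := Pool.Agent.N375.AV.windows_unif (fun n : ℕ => (n : ℝ)) fs hfs hG hs hκ h1 |C|
  refine ⟨c, K, hc, fun Good hGood N hN => le_trans ?_ (H {n : ℕ | 1 ≤ n ∧ ¬ Good n} (sparse_set hs hGood) N hN)⟩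
  have hfin : {m : ℕ | 1 ≤ m ∧ m ≤ N ∧ ∃ t ∈ {n : ℕ | 1 ≤ n ∧ ¬ Good n},
      |(t : ℝ) - G (comp fs m)| ≤ (comp fs m : ℝ) ^ κ}.Finite :=
    (Set.finite_Icc 1 N).subset fun m hm => ⟨hm.1, hm.2.1⟩
  have hsub : {m : ℕ | 1 ≤ m ∧ m ≤ N ∧ ¬ NearV G κ Good (comp fs m)} ⊆
      {m : ℕ | 1 ≤ m ∧ m ≤ N ∧ ∃ t ∈ {n : ℕ | 1 ≤ n ∧ ¬ Good n}, |(t : ℝ) - G (comp fs m)| ≤ (comp fs m : ℝ) ^ κ} :=
    fun m hm => ⟨hm.1, hm.2.1, near_of_not hm.2.2⟩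
  exact_mod_cast Set.ncard_le_ncard hsub hfin

open Classical in
/-- **Orbits of Euler's function** -/
theorem orbit {f : ℕ → ℕ} (hf : LM f) {G : ℕ → ℝ} {d : ℝ} (hG : Expanding G d) {s κ : ℝ} (hs : 0 ≤ s) (hκ : 0 ≤ κ)
    (h1 : d * s + κ < 1) (C : ℝ) (J : ℕ) (ε : ℝ) (hε : 0 < ε) :
    ∃ N₀ : ℕ, ∀ N : ℕ, N₀ ≤ N → ∀ Good : ℕ → Prop, Sparse C s Good →
      ({m : ℕ | 1 ≤ m ∧ m ≤ N ∧ ¬ ∀ k ≤ J, NearV G κ Good (orb f k m)}.ncard : ℝ) ≤ ε * N := by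
  have hds : 0 ≤ d * s := by
    have := hG.one_le
    positivity
  obtain ⟨K, hK⟩ := Pool.Agent.N375.MV.nearG_count_unif (fun n : ℕ => (n : ℝ)) hG (s := s) (κ := κ) hs hκ
    (by linarith) |C|
  have hε' : 0 < ε / (J + 1) := by positivity
  choose N₁ hN₁ using fun k => densW hf (θ := d * s + κ) (by positivity) h1 K k (ε / (J + 1)) hε'
  refine ⟨∑ k ∈ range (J + 1), N₁ k, fun N hN Good hGood => ?_⟩
  set W : Set ℕ := NearG {n : ℕ | 1 ≤ n ∧ ¬ Good n} (fun n : ℕ => (n : ℝ)) G κ with hW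
  have hfew : Few K (d * s + κ) W := fun X hX => by
    convert hK {n : ℕ | 1 ≤ n ∧ ¬ Good n} (sparse_set hs hGood) X hX
  have hsub : {m : ℕ | 1 ≤ m ∧ m ≤ N ∧ ¬ ∀ k ≤ J, NearV G κ Good (orb f k m)} ⊆
      (((range (J + 1)).biUnion fun k => (Icc 1 N).filter fun m => f (Nat.totient^[k] m) ∈ W : Finset ℕ) : Set ℕ) := by
    rintro m ⟨hm1, hmN, hm⟩
    push Not at hm
    obtain ⟨k, hk, hk2⟩ := hm
    rw [mem_coe, mem_biUnion]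
    refine ⟨k, mem_range.2 (by omega), mem_filter.2 ⟨mem_Icc.2 ⟨hm1, hmN⟩, ?_⟩⟩
    exact near_of_not hk2
  have h2 := Set.ncard_le_ncard hsub (finite_toSet _)
  rw [Set.ncard_coe_finset] at h2
  have h3 : (({m : ℕ | 1 ≤ m ∧ m ≤ N ∧ ¬ ∀ k ≤ J, NearV G κ Good (orb f k m)}.ncard : ℕ) : ℝ) ≤
      ∑ k ∈ range (J + 1), (((Icc 1 N).filter fun m => f (Nat.totient^[k] m) ∈ W).card : ℝ) := by
    exact_mod_cast h2.trans card_biUnion_le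
  refine h3.trans ?_
  calc ∑ k ∈ range (J + 1), (((Icc 1 N).filter fun m => f (Nat.totient^[k] m) ∈ W).card : ℝ)
      ≤ ∑ k ∈ range (J + 1), ε / (J + 1) * N := by
        refine sum_le_sum fun k hk => ?_
        convert hN₁ k N ((single_le_sum (f := N₁) (fun _ _ => Nat.zero_le _) hk).trans hN) W hfew
    _ = ε * N := by
        rw [sum_const, card_range, nsmul_eq_mul]
        push_cast
        field_simp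

/-- **Values of starshaped functions** -/
theorem star {C s : ℝ} (hs : 0 ≤ s) {Good : ℕ → Prop} (h : Sparse C s Good) {f : ℕ → ℝ → ℝ} {a τ θ : ℝ}
    (hf : Pool.Agent.R482.ST.Starshaped a f) (hτ : 0 ≤ τ) (hv : Pool.Agent.R482.ST.Conv a f τ) (hθ : θ < 1) :
    ∃ E : Set ℝ, dimH E ≤ ENNReal.ofReal ((s + τ) / (1 - θ)) ∧ ∀ x : ℝ, a < x → x ∉ E → ∀ c : ℝ,
      ∃ n₀ : ℕ, ∀ j : ℕ, n₀ ≤ j → ∀ n : ℕ, 1 ≤ n → |(n : ℝ) - f j x| ≤ c * (f j x) ^ θ → Good n := by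
  obtain ⟨E, h1, h2⟩ := Pool.Agent.R482.ST.windows {n : ℕ | 1 ≤ n ∧ ¬ Good n} (fun n : ℕ => (n : ℝ)) hf hτ hv hs hθ
    (fun ε hε => ⟨|C|, fun X hX => ⟨(sparse_set hs h X hX).1, (sparse_set hs h X hX).2.trans
      (mul_le_mul_of_nonneg_left (Real.rpow_le_rpow_of_exponent_le hX (by linarith)) (abs_nonneg _))⟩⟩)
  refine ⟨E, h1, fun x hx hxE c => ?_⟩
  obtain ⟨n₀, hn₀⟩ := h2 x hx hxE c
  refine ⟨n₀, fun j hj n hn hw => ?_⟩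
  by_contra hbad
  exact absurd hw (not_le.2 (hn₀ j hj n ⟨hn, hbad⟩))

end Pool.Agent.J6H45.WF
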