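import Pool.Agent.W221.ABC.Main7
import Pool.Agent.R559.NP.Win
import Pool.Agent.J6H45.WF.Tr

/-!
# The integers which divide `abc` for an abc-triple with a small radical have a power saving
-/

set_option autoImplicit false

open Finset

namespace Pool.Agent.J6H45.WF.ABC

/-- the product of the primes dividing `n` -/
def rad (n : ℕ) : ℕ := ∏ p ∈ n.primeFactors, p

/-- `T(a, b, c) = log (c / rad(abc)) / √(log c)` -/
noncomputable def T (a b c : ℕ) : ℝ :=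
  Real.log ((c : ℝ) / (rad (a * b * c) : ℝ)) / Real.sqrt (Real.log c)

/-- increasing from `15 / 28` for `η = 0` to `1` for `η = 7 / 9`: equal to `5 (10 η + 9) / 84` for
`η ≤ 1 / 2` and to `(9 η + 8) / 15` for `η > 1 / 2` -/
noncomputable def f (η : ℝ) : ℝ := if η ≤ 1 / 2 then 5 * (10 * η + 9) / 84 else (9 * η + 8) / 15

/-- every abc-triple `(a, b, c)` (positive, coprime, `c = a + b`) with `n ∣ abc` and `c ≤ n ^ A` satisfies
`T(a, b, c) < - η √(log c) - K / √(log c)`, that is `rad (abc) > exp K * c ^ (1 + η)` -/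
def Good (A η K : ℝ) (n : ℕ) : Prop :=
  ∀ a b : ℕ, 0 < a → 0 < b → Nat.Coprime a b → n ∣ a * b * (a + b) → ((a + b : ℕ) : ℝ) ≤ (n : ℝ) ^ A →
    T a b (a + b) <
      - η * Real.sqrt (Real.log ((a + b : ℕ) : ℝ)) - K / Real.sqrt (Real.log ((a + b : ℕ) : ℝ))

lemma Fx_eq (η : ℝ) (h0 : 0 ≤ η) (h1 : η < 7 / 9) : Pool.Agent.W221.ABC7.Fx (1 + η) = f η := by
  unfold Pool.Agent.W221.ABC7.Fx f
  rcases h0.eq_or_lt with h | h
  · subst h
    norm_num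
  · rw [if_neg (show ¬ (1 + η ≤ 2 / 3) by linarith), if_neg (show ¬ (1 + η ≤ 1) by linarith)]
    by_cases h2 : η ≤ 1 / 2
    · rw [if_pos (show 1 + η ≤ 3 / 2 by linarith), if_pos h2]
      ring
    · rw [if_neg (show ¬ (1 + η ≤ 3 / 2) by linarith), if_pos (show 1 + η ≤ 16 / 9 by linarith), if_neg h2]
      ring

lemma f_pos {η : ℝ} (h0 : 0 ≤ η) : 0 < f η := by
  unfold f
  split_ifs <;> positivity

lemma rad_pos (n : ℕ) : 0 < rad n :=
  Finset.prod_pos fun _ hp => (Nat.prime_of_mem_primeFactors hp).pos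

/-- the tuple `(a, b, c)` -/
def tup (t : ℕ × ℕ × ℕ) : Fin 3 → ℤ := ![(t.1 : ℤ), (t.2.1 : ℤ), (t.2.2 : ℤ)]

/-- the tuples of the exceptional triples -/
def Bad (η K : ℝ) (x : Fin 3 → ℤ) : Prop :=
  ∃ t : ℕ × ℕ × ℕ, x = tup t ∧ 0 < t.1 ∧ 0 < t.2.1 ∧ Nat.Coprime t.1 t.2.1 ∧ t.1 + t.2.1 = t.2.2 ∧
    (rad (t.1 * t.2.1 * t.2.2) : ℝ) ≤ Real.exp K * (t.2.2 : ℝ) ^ (1 + η)

lemma tup_inj : Function.Injective tup := by
  rintro ⟨a, b, c⟩ ⟨a', b', c'⟩ h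
  have h0 := congrFun h 0
  have h1 := congrFun h 1
  have h2 := congrFun h 2
  simp only [tup, Matrix.cons_val_zero, Matrix.cons_val_one, Matrix.cons_val] at h0 h1 h2
  norm_cast at h0 h1 h2
  rw [h0, h1, h2]

lemma height_tup {t : ℕ × ℕ × ℕ} (h : t.1 + t.2.1 = t.2.2) (B : ℝ) :
    Pool.Agent.R559.NP.height (tup t) ≤ B ↔ (t.2.2 : ℝ) ≤ B := by
  rw [Pool.Agent.R559.NP.height_le_iff (by norm_num)]
  constructor
  · intro h1
    have := h1 2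
    simpa [tup] using this
  · intro h1 i
    have e1 : (t.1 : ℝ) ≤ t.2.2 := by exact_mod_cast (by omega : t.1 ≤ t.2.2)
    have e2 : (t.2.1 : ℝ) ≤ t.2.2 := by exact_mod_cast (by omega : t.2.1 ≤ t.2.2)
    fin_cases i
    · simpa [tup] using e1.trans h1
    · simpa [tup] using e2.trans h1
    · simpa [tup] using h1

lemma prod_tup (t : ℕ × ℕ × ℕ) : ∏ i, tup t i = ((t.1 * t.2.1 * t.2.2 : ℕ) : ℤ) := by
  rw [Fin.prod_univ_three]
  simp [tup]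

lemma bad_ne {η K : ℝ} : ∀ x, Bad η K x → ∀ i, x i ≠ 0 := by
  rintro x ⟨t, rfl, h4, h5, h6, h7, h8⟩ i
  have h9 : 0 < t.2.2 := by omega
  fin_cases i
  · simpa [tup] using h4.ne'
  · simpa [tup] using h5.ne'
  · simpa [tup] using h9.ne'

lemma count {η K : ℝ} (h0 : 0 ≤ η) (h1 : η < 7 / 9) (δ : ℝ) (hδ : 0 < δ) : ∃ C : ℝ, ∀ B : ℝ, 1 ≤ B →
    {x | Bad η K x ∧ Pool.Agent.R559.NP.height x ≤ B}.Finite ∧
    (({x | Bad η K x ∧ Pool.Agent.R559.NP.height x ≤ B}.ncard : ℕ) : ℝ) ≤ C * B ^ (f η + δ : ℝ) := by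
  obtain ⟨C, hC⟩ := Pool.Agent.W221.ABC7.count_FxB (Real.exp K) (1 + η) δ (by linarith) hδ
  refine ⟨|C|, fun B hB => ?_⟩
  have h2 : 1 ≤ ⌊B⌋₊ := Nat.le_floor (by exact_mod_cast hB)
  have hfin := Pool.Agent.W221.ABC7.excB_finite (Real.exp K) (1 + η) ⌊B⌋₊
  have h3 := hC ⌊B⌋₊ h2
  rw [Fx_eq η h0 h1] at h3
  have hsub : {x | Bad η K x ∧ Pool.Agent.R559.NP.height x ≤ B} ⊆
      tup '' Pool.Agent.W221.ABC7.ExcB (Real.exp K) (1 + η) ⌊B⌋₊ := by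
    rintro x ⟨⟨t, rfl, h4, h5, h6, h7, h8⟩, h9⟩
    exact ⟨t, ⟨h4, h5, h6, h7, Nat.le_floor ((height_tup h7 B).1 h9), h8⟩, rfl⟩
  refine ⟨(hfin.image _).subset hsub, ?_⟩
  have hB0 : (0 : ℝ) ≤ B := by linarith
  have hf := f_pos h0
  calc _ ≤ (((Pool.Agent.W221.ABC7.ExcB (Real.exp K) (1 + η) ⌊B⌋₊).ncard : ℕ) : ℝ) := by
        have h4 := Set.ncard_le_ncard hsub (hfin.image _)
        rw [Set.ncard_image_of_injective _ tup_inj] at h4
        exact_mod_cast h4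
    _ ≤ C * (⌊B⌋₊ : ℝ) ^ (f η + δ : ℝ) := h3
    _ ≤ |C| * (⌊B⌋₊ : ℝ) ^ (f η + δ : ℝ) := mul_le_mul_of_nonneg_right (le_abs_self C) (by positivity)
    _ ≤ |C| * B ^ (f η + δ : ℝ) := by
      refine mul_le_mul_of_nonneg_left ?_ (abs_nonneg C)
      exact Real.rpow_le_rpow (Nat.cast_nonneg _) (Nat.floor_le hB0) (by positivity)

lemma good_of {A η K : ℝ} {n : ℕ} (h : n ∉ Pool.Agent.R559.NP.DivBad (Bad η K) A) : Good A η K n := by
  intro a b ha hb hab hdvd hht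
  have hc : (1 : ℝ) < ((a + b : ℕ) : ℝ) := by exact_mod_cast (by omega : 1 < a + b)
  have hc0 : (0 : ℝ) < ((a + b : ℕ) : ℝ) := by linarith
  have hl : 0 < Real.log ((a + b : ℕ) : ℝ) := Real.log_pos hc
  have hs : 0 < Real.sqrt (Real.log ((a + b : ℕ) : ℝ)) := Real.sqrt_pos.mpr hl
  have hr : (0 : ℝ) < (rad (a * b * (a + b)) : ℝ) := by exact_mod_cast rad_pos _
  have hbig : Real.exp K * ((a + b : ℕ) : ℝ) ^ (1 + η) < (rad (a * b * (a + b)) : ℝ) := by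
    by_contra hcon
    push Not at hcon
    refine h ⟨tup (a, b, a + b), ⟨(a, b, a + b), rfl, ha, hb, hab, rfl, hcon⟩,
      (height_tup (t := (a, b, a + b)) rfl _).2 hht, ?_⟩
    rw [prod_tup]
    exact_mod_cast hdvd
  have h1 := Real.log_lt_log (by positivity) hbig
  rw [Real.log_mul (Real.exp_pos K).ne' (Real.rpow_pos_of_pos hc0 _).ne', Real.log_exp,
    Real.log_rpow hc0] at h1
  unfold T
  rw [Real.log_div hc0.ne' hr.ne', div_lt_iff₀ hs]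
  have hss : Real.sqrt (Real.log ((a + b : ℕ) : ℝ)) * Real.sqrt (Real.log ((a + b : ℕ) : ℝ)) =
      Real.log ((a + b : ℕ) : ℝ) := Real.mul_self_sqrt hl.le
  have h2 : (-η * Real.sqrt (Real.log ((a + b : ℕ) : ℝ)) - K / Real.sqrt (Real.log ((a + b : ℕ) : ℝ))) *
      Real.sqrt (Real.log ((a + b : ℕ) : ℝ)) = -η * Real.log ((a + b : ℕ) : ℝ) - K := by
    rw [sub_mul, div_mul_cancel₀ _ hs.ne', mul_assoc, hss]
  rw [h2]
  linarith

/-- the inequality of the question for the triples with a good divisor -/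
theorem holds_of_good {A : ℝ} {n : ℕ} (h : Good A 0 0 n) {a b : ℕ} (ha : 0 < a) (hb : 0 < b) (hab : Nat.Coprime a b)
    (hdvd : n ∣ a * b * (a + b)) (hht : ((a + b : ℕ) : ℝ) ≤ (n : ℝ) ^ A) :
    ((a + b : ℕ) : ℝ) ^ (1 - 1 / Real.sqrt (Real.log ((a + b : ℕ) : ℝ))) < (rad (a * b * (a + b)) : ℝ) := by
  have h1 := h a b ha hb hab hdvd hht
  rw [neg_zero, zero_mul, zero_div, sub_zero] at h1
  have hc : (1 : ℝ) < ((a + b : ℕ) : ℝ) := by exact_mod_cast (by omega : 1 < a + b)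
  have hc0 : (0 : ℝ) < ((a + b : ℕ) : ℝ) := by linarith
  have hl : 0 < Real.log ((a + b : ℕ) : ℝ) := Real.log_pos hc
  have hs : 0 < Real.sqrt (Real.log ((a + b : ℕ) : ℝ)) := Real.sqrt_pos.mpr hl
  have hr : (0 : ℝ) < (rad (a * b * (a + b)) : ℝ) := by exact_mod_cast rad_pos _
  unfold T at h1
  rw [Real.log_div hc0.ne' hr.ne', div_lt_iff₀ hs, zero_mul, sub_neg] at h1
  have h2 : ((a + b : ℕ) : ℝ) < (rad (a * b * (a + b)) : ℝ) := (Real.log_lt_log_iff hc0 hr).1 h1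
  refine lt_of_le_of_lt ?_ h2
  calc ((a + b : ℕ) : ℝ) ^ (1 - 1 / Real.sqrt (Real.log ((a + b : ℕ) : ℝ))) ≤ ((a + b : ℕ) : ℝ) ^ (1 : ℝ) := by
        refine Real.rpow_le_rpow_of_exponent_le hc.le ?_
        have : 0 ≤ 1 / Real.sqrt (Real.log ((a + b : ℕ) : ℝ)) := by positivity
        linarith
    _ = ((a + b : ℕ) : ℝ) := Real.rpow_one _

/-- all natural numbers `n ≤ X` but `C X ^ (A f(η) + δ)` are good -/
theorem sparse {A η : ℝ} (K : ℝ) (hA : 0 < A) (h0 : 0 ≤ η) (h1 : η < 7 / 9) (δ : ℝ) (hδ : 0 < δ) :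
    ∃ C : ℝ, Sparse C (A * f η + δ) (Good A η K) := by
  classical
  obtain ⟨C, hC⟩ := Pool.Agent.R559.NP.count_div (Bad := Bad η K) bad_ne hA (fun δ' hδ' => count h0 h1 δ' hδ') δ hδ
  refine ⟨C, fun X hX => le_trans ?_ (hC X hX)⟩
  have hsub : ((Icc 1 X).filter fun n => ¬ Good A η K n) ⊆
      (Ioc 0 X).filter (fun m => m ∈ Pool.Agent.R559.NP.DivBad (Bad η K) A) := by
    intro n hn
    rw [mem_filter, mem_Icc] at hn
    rw [mem_filter, mem_Ioc]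
    refine ⟨⟨by omega, hn.1.2⟩, ?_⟩
    by_contra hcon
    exact hn.2 (good_of hcon)
  have h2 := card_le_card hsub
  convert (by exact_mod_cast h2 : ((((Icc 1 X).filter fun n => ¬ Good A η K n).card : ℕ) : ℝ) ≤
    (((Ioc 0 X).filter (fun m => m ∈ Pool.Agent.R559.NP.DivBad (Bad η K) A)).card : ℝ))

end Pool.Agent.J6H45.WF.ABC
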