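import Pool.Agent.J6H45.WF.Few

/-!
# Windows of translates of the algebraic numbers of bounded height
-/

set_option autoImplicit false

open Finset

namespace Pool.Agent.J6H45.WF

/-- The algebraic numbers which are roots of nonzero integral polynomials of degree at most `g` with coefficients at most `B`. -/
def AlgNum (g B : ℕ) : Set ℂ :=
  {α | ∃ p : Polynomial ℤ, p ≠ 0 ∧ p.natDegree ≤ g ∧ (∀ j, |p.coeff j| ≤ (B : ℤ)) ∧ Polynomial.aeval α p = 0}

/-- `ξ` is a root of a nonzero integral polynomial of degree at most `g` with coefficients of size at most `|ξ|^A` -/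
def Ht (g A : ℕ) (ξ : ℂ) : Prop :=
  ∃ p : Polynomial ℤ, p ≠ 0 ∧ p.natDegree ≤ g ∧ (∀ j, |(p.coeff j : ℝ)| ≤ ‖ξ‖ ^ A) ∧ Polynomial.aeval ξ p = 0

open Classical in
theorem algNum_finite (g B : ℕ) : (AlgNum g B).Finite := by
  have h := Polynomial.bUnion_roots_finite (algebraMap ℤ ℂ) g (Set.finite_Icc (-(B : ℤ)) B)
  refine h.subset ?_
  rintro α ⟨p, hp, hd, hc, h0⟩
  rw [Set.mem_iUnion₂]
  refine ⟨p, ⟨hd, fun i => abs_le.1 (hc i)⟩, ?_⟩
  have hinj : Function.Injective (algebraMap ℤ ℂ) := (algebraMap ℤ ℂ).injective_int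
  have hp' : p.map (algebraMap ℤ ℂ) ≠ 0 := by
    rw [Ne, Polynomial.map_eq_zero_iff hinj]
    exact hp
  rw [Finset.mem_coe, Multiset.mem_toFinset, Polynomial.mem_roots hp', Polynomial.IsRoot.def, Polynomial.eval_map,
    ← Polynomial.aeval_def]
  exact h0

/-- the coefficients of `(x - c)^i` -/
lemma coeff_le (c : ℤ) (g i j : ℕ) (hi : i ≤ g) :
    |(((Polynomial.X - Polynomial.C c) ^ i).coeff j : ℤ)| ≤ (1 + |c|) ^ g := by
  have h1 : (Polynomial.X - Polynomial.C c) ^ i = (Polynomial.X + Polynomial.C (-c)) ^ i := by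
    rw [Polynomial.C_neg, sub_eq_add_neg]
  rw [h1, Polynomial.coeff_X_add_C_pow]
  rcases lt_or_ge i j with h | h
  · rw [Nat.choose_eq_zero_of_lt h]
    simp only [Nat.cast_zero, mul_zero, abs_zero]
    positivity
  · rw [abs_mul, abs_pow, abs_neg, Nat.abs_cast]
    have h2 : (1 + |c|) ^ i = ∑ m ∈ range (i + 1), 1 ^ m * |c| ^ (i - m) * ((i.choose m : ℕ) : ℤ) := add_pow _ _ _
    have h3 : 1 ^ j * |c| ^ (i - j) * ((i.choose j : ℕ) : ℤ) ≤
        ∑ m ∈ range (i + 1), 1 ^ m * |c| ^ (i - m) * ((i.choose m : ℕ) : ℤ) :=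
      Finset.single_le_sum (f := fun m => 1 ^ m * |c| ^ (i - m) * ((i.choose m : ℕ) : ℤ))
        (fun m _ => by positivity) (mem_range.2 (by omega))
    rw [one_pow, one_mul] at h3
    calc |c| ^ (i - j) * ((i.choose j : ℕ) : ℤ) ≤ (1 + |c|) ^ i := by rw [h2]; exact h3
      _ ≤ (1 + |c|) ^ g := pow_le_pow_right₀ (by linarith [abs_nonneg c]) hi

/-- translates of algebraic numbers of bounded height have polynomially bounded height -/
theorem ht_shift (g B : ℕ) : ∃ N₀ : ℕ, ∀ c : ℤ, (N₀ : ℤ) ≤ |c| → ∀ α ∈ AlgNum g B,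
    Ht g (g + 1) ((c : ℂ) + α) ∧ |(c : ℝ)| / 2 ≤ ‖(c : ℂ) + α‖ := by
  obtain ⟨M, hM⟩ : ∃ M : ℝ, ∀ α ∈ AlgNum g B, ‖α‖ ≤ M := by
    obtain ⟨M, hM⟩ := ((algNum_finite g B).image fun α => ‖α‖).bddAbove
    exact ⟨M, fun α hα => hM ⟨α, hα, rfl⟩⟩
  obtain ⟨N₀, hN₀⟩ := exists_nat_ge (max (2 * M) (2 * (((g : ℝ) + 1) * B * 4 ^ g) + 1))
  refine ⟨N₀, fun c hc α hα => ?_⟩
  have hcR : (N₀ : ℝ) ≤ |(c : ℝ)| := by exact_mod_cast hc
  have hc1 : 2 * M ≤ |(c : ℝ)| := (le_max_left _ _).trans (hN₀.trans hcR)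
  have hc2 : 2 * (((g : ℝ) + 1) * B * 4 ^ g) + 1 ≤ |(c : ℝ)| := (le_max_right _ _).trans (hN₀.trans hcR)
  have hc3 : (1 : ℝ) ≤ |(c : ℝ)| := le_trans (by linarith [show 0 ≤ 2 * (((g : ℝ) + 1) * B * 4 ^ g) by positivity]) hc2
  have hn : |(c : ℝ)| / 2 ≤ ‖(c : ℂ) + α‖ := by
    have h1 : ‖(c : ℂ)‖ = |(c : ℝ)| := by rw [Complex.norm_intCast]
    have h2 : ‖(c : ℂ)‖ - ‖α‖ ≤ ‖(c : ℂ) + α‖ := by
      have := norm_sub_norm_le (c : ℂ) (-α)
      rwa [norm_neg, sub_neg_eq_add] at this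
    have h3 := hM α hα
    rw [h1] at h2
    linarith
  refine ⟨?_, hn⟩
  obtain ⟨p, hp, hd, hcf, h0⟩ := hα
  refine ⟨p.comp (Polynomial.X - Polynomial.C c), ?_, ?_, fun j => ?_, ?_⟩
  · intro h
    have h1 : (p.comp (Polynomial.X - Polynomial.C c)).comp (Polynomial.X + Polynomial.C c) = p := by
      rw [Polynomial.comp_assoc]
      simp
    rw [h, Polynomial.zero_comp] at h1
    exact hp h1.symm
  · refine le_trans Polynomial.natDegree_comp_le ?_
    rw [Polynomial.natDegree_X_sub_C, mul_one]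
    exact hd
  · have hsum : p.comp (Polynomial.X - Polynomial.C c) =
        ∑ i ∈ range (g + 1), Polynomial.C (p.coeff i) * (Polynomial.X - Polynomial.C c) ^ i := by
      rw [Polynomial.comp, Polynomial.eval₂_eq_sum_range' _ (Nat.lt_succ_of_le hd)]
    have h1 : |(p.comp (Polynomial.X - Polynomial.C c)).coeff j| ≤ ((g : ℤ) + 1) * (B * (1 + |c|) ^ g) := by
      rw [hsum, Polynomial.finsetSum_coeff]
      refine (Finset.abs_sum_le_sum_abs _ _).trans ?_
      have h2 : ∀ i ∈ range (g + 1), |(Polynomial.C (p.coeff i) * (Polynomial.X - Polynomial.C c) ^ i).coeff j| ≤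
          B * (1 + |c|) ^ g := by
        intro i hi
        rw [Polynomial.coeff_C_mul, abs_mul]
        exact mul_le_mul (hcf i) (coeff_le c g i j (by have := mem_range.1 hi; omega)) (abs_nonneg _) (by positivity)
      refine (Finset.sum_le_card_nsmul _ _ _ h2).trans ?_
      rw [card_range, nsmul_eq_mul]
      push_cast
      exact le_rfl
    have h2 : |((p.comp (Polynomial.X - Polynomial.C c)).coeff j : ℝ)| ≤ ((g : ℝ) + 1) * (B * (1 + |(c : ℝ)|) ^ g) := by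
      exact_mod_cast h1
    refine h2.trans ?_
    have h3 : (1 + |(c : ℝ)|) ^ g ≤ 4 ^ g * (|(c : ℝ)| / 2) ^ g := by
      rw [← mul_pow]
      exact pow_le_pow_left₀ (by positivity) (by linarith) g
    calc ((g : ℝ) + 1) * (B * (1 + |(c : ℝ)|) ^ g) ≤ ((g : ℝ) + 1) * (B * (4 ^ g * (|(c : ℝ)| / 2) ^ g)) := by
          gcongr
      _ = (((g : ℝ) + 1) * B * 4 ^ g) * (|(c : ℝ)| / 2) ^ g := by ring
      _ ≤ (|(c : ℝ)| / 2) * (|(c : ℝ)| / 2) ^ g := by
          apply mul_le_mul_of_nonneg_right _ (by positivity)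
          linarith
      _ = (|(c : ℝ)| / 2) ^ (g + 1) := by rw [pow_succ]; ring
      _ ≤ ‖(c : ℂ) + α‖ ^ (g + 1) := pow_le_pow_left₀ (by positivity) hn _
  · rw [Polynomial.aeval_comp]
    have h1 : Polynomial.aeval ((c : ℂ) + α) (Polynomial.X - Polynomial.C c) = α := by
      simp
    rw [h1]
    exact h0

lemma exists_res (G : ℕ) (hG : 1 ≤ G) (D : ℕ) : ∃ r < G, G ∣ D + r := by
  refine ⟨(G - D % G) % G, Nat.mod_lt _ (by omega), ?_⟩
  rcases Nat.eq_zero_or_pos (D % G) with h | h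
  · rw [h, Nat.sub_zero, Nat.mod_self, Nat.add_zero]
    exact Nat.dvd_of_mod_eq_zero h
  · have h1 : D % G < G := Nat.mod_lt _ (by omega)
    rw [Nat.mod_eq_of_lt (by omega)]
    have h2 := Nat.div_add_mod D G
    refine ⟨D / G + 1, ?_⟩
    rw [mul_add, mul_one]
    omega

open Classical in
/-- **From arithmetic progressions of algebraic points to windows of translates.** -/
theorem windows_alg (g B G E Q : ℕ) (hG : 1 ≤ G) : ∃ E' Q' : ℕ, 1 ≤ E' ∧ ∀ gd : ℂ → Prop,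
    (∀ (H : ℕ) (ξ : ℂ), ((H : ℝ) + 2) ^ E ≤ ‖ξ‖ → Ht g (g + 1) ξ →
      ∃ S : Finset ℕ, S.card ≤ Q ∧ ∀ u : ℕ, 1 ≤ u → u ≤ H → u ∉ S → gd (ξ - ((G * u : ℕ) : ℂ))) →
    Windows (fun t : ℤ => {t}) (fun t => ∀ α ∈ AlgNum g B, gd ((t : ℂ) + α)) E' Q' := by
  obtain ⟨N₀, hN₀⟩ := ht_shift g B
  set A := (algNum_finite g B).toFinset with hA
  set k := 2 * (G + 1) ^ E + G + N₀ + 1 with hk
  refine ⟨E + k, A.card * (G * Q), by omega, fun gd hgd N H hNH ε hε => ?_⟩
  -- the window is large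
  have hN1 : 2 * ((H + 2) * (G + 1)) ^ E + G + N₀ + 1 ≤ N := by
    refine le_trans ?_ hNH
    have h1 : k ≤ (H + 2) ^ k := (Nat.lt_pow_self (by omega)).le
    have h2 : 1 ≤ (H + 2) ^ E := Nat.one_le_pow _ _ (by omega)
    calc 2 * ((H + 2) * (G + 1)) ^ E + G + N₀ + 1
        ≤ (H + 2) ^ E * k := by
          rw [hk, mul_pow]
          nlinarith
      _ ≤ (H + 2) ^ E * (H + 2) ^ k := Nat.mul_le_mul_left _ h1
      _ = (H + 2) ^ (E + k) := (pow_add _ _ _).symm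
  obtain ⟨c, hc⟩ : ∃ c : ℤ, c = if ε = 1 then (N : ℤ) + H + 1 else -(N : ℤ) + 1 := ⟨_, rfl⟩
  have hcr : ∀ r < G, (N : ℤ) - G ≤ |c + r| := by
    intro r hr
    have hr' : (r : ℤ) < G := by exact_mod_cast hr
    rw [hc]
    split_ifs with h
    · rw [abs_of_nonneg (by positivity)]
      have : (0 : ℤ) ≤ H := by positivity
      linarith
    · rw [abs_of_nonpos (by
        have : (G : ℤ) + 1 ≤ N := by
          have : G + 1 ≤ N := by omega
          exact_mod_cast this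
        linarith)]
      linarith
  have hlarge : ∀ r < G, ∀ α ∈ AlgNum g B, (((H + G : ℕ) : ℝ) + 2) ^ E ≤ ‖((c + r : ℤ) : ℂ) + α‖ ∧
      Ht g (g + 1) (((c + r : ℤ) : ℂ) + α) := by
    intro r hr α hα
    have h1 := hcr r hr
    have h2 : (2 * ((H + 2) * (G + 1)) ^ E + G + N₀ + 1 : ℤ) ≤ N := by exact_mod_cast hN1
    have h2' : (0 : ℤ) ≤ ((H + 2) * (G + 1)) ^ E := by positivity
    obtain ⟨h3, h4⟩ := hN₀ (c + r) (by linarith) α hα
    refine ⟨?_, h3⟩
    refine le_trans ?_ h4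
    have h5 : (2 * ((H + 2) * (G + 1)) ^ E : ℝ) ≤ |((c + r : ℤ) : ℝ)| := by
      have : (2 * ((H + 2) * (G + 1)) ^ E : ℤ) ≤ |c + r| := by linarith
      exact_mod_cast this
    have h6 : (((H + G : ℕ) : ℝ) + 2) ^ E ≤ (((H : ℝ) + 2) * (G + 1)) ^ E := by
      apply pow_le_pow_left₀ (by positivity)
      push_cast
      nlinarith [(Nat.cast_nonneg H : (0 : ℝ) ≤ H), (Nat.cast_nonneg G : (0 : ℝ) ≤ G)]
    linarith
  have hS : ∀ (r : ℕ) (α : ℂ), ∃ S : Finset ℕ, (r < G → α ∈ AlgNum g B → S.card ≤ Q ∧ ∀ u : ℕ, 1 ≤ u → u ≤ H + G → u ∉ S →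
      gd (((c + r : ℤ) : ℂ) + α - ((G * u : ℕ) : ℂ))) := by
    intro r α
    by_cases h : r < G ∧ α ∈ AlgNum g B
    · obtain ⟨S, hS1, hS2⟩ := hgd (H + G) _ (hlarge r h.1 α h.2).1 (hlarge r h.1 α h.2).2
      exact ⟨S, fun _ _ => ⟨hS1, hS2⟩⟩
    · exact ⟨∅, fun h1 h2 => absurd ⟨h1, h2⟩ h⟩
  choose S hS using hS
  refine ⟨A.biUnion fun α => (range G).biUnion fun r => (S r α).image fun u : ℕ => (c + r - G * u : ℤ), ?_, fun t ht α hα => ?_⟩
  · refine Finset.card_biUnion_le_card_mul _ _ _ fun α hα => ?_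
    have hα' : α ∈ AlgNum g B := (algNum_finite g B).mem_toFinset.1 hα
    refine (Finset.card_biUnion_le_card_mul _ _ Q fun r hr => ?_).trans (by rw [card_range])
    exact card_image_le.trans (hS r α (mem_range.1 hr) hα').1
  · obtain ⟨ht1, ht2, ht3⟩ := ht t rfl
    have hct : 1 ≤ c - t ∧ c - t ≤ H + 1 := by
      rw [hc]
      rcases hε with rfl | rfl
      · rw [if_pos rfl]
        rw [one_mul] at ht1 ht2
        constructor <;> linarith
      · rw [if_neg (by norm_num)]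
        constructor <;> linarith
    obtain ⟨r, hr, hdvd⟩ := exists_res G hG (c - t).toNat
    obtain ⟨u, hu⟩ := hdvd
    have h1 : ((c - t).toNat : ℤ) = c - t := Int.toNat_of_nonneg (by linarith)
    have h2 : c - t + r = G * u := by
      rw [← h1]
      exact_mod_cast hu
    have hu1 : 1 ≤ u := by
      rcases Nat.eq_zero_or_pos u with h | h
      · rw [h, Nat.cast_zero, mul_zero] at h2
        have : (0 : ℤ) ≤ r := by positivity
        linarith [hct.1]
      · exact h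
    have hu2 : u ≤ H + G := by
      have h3 : (G : ℤ) * u ≤ H + G := by
        rw [← h2]
        have : (r : ℤ) + 1 ≤ G := by exact_mod_cast hr
        linarith [hct.2]
      have h4 : (u : ℤ) ≤ G * u := by
        have : (1 : ℤ) ≤ G := by exact_mod_cast hG
        nlinarith [(Nat.cast_nonneg u : (0 : ℤ) ≤ u)]
      exact_mod_cast h4.trans h3
    have hu3 : u ∉ S r α := by
      intro hmem
      apply ht3
      rw [mem_biUnion]
      refine ⟨α, (algNum_finite g B).mem_toFinset.2 hα, ?_⟩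
      rw [mem_biUnion]
      refine ⟨r, mem_range.2 hr, mem_image.2 ⟨u, hmem, ?_⟩⟩
      linarith
    have h5 := (hS r α hr hα).2 u hu1 hu2 hu3
    have h6 : (t : ℂ) + α = ((c + r : ℤ) : ℂ) + α - ((G * u : ℕ) : ℂ) := by
      have h7 : t = c + r - G * u := by linarith
      rw [h7]
      push_cast
      ring
    rw [h6]
    exact h5

end Pool.Agent.J6H45.WF
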