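import Pool.Agent.N665.DA.Near
import Pool.Agent.J6H45.WF.Tr

/-!
# Sparse sets of exceptions and the best approximation vectors of systems of linear forms
-/

set_option autoImplicit false

open Finset

namespace Pool.Agent.J6H45.WF

open Pool.Agent.N671.DA (Near)

open Classical in
/-- the vectors in a box with a bad component are few -/
theorem bad_vectors {k : ℕ} (hk : 1 ≤ k) {C c : ℝ} (hc1 : c ≤ 1) {Good : ℕ → Prop} (h : Sparse C (1 - c) Good)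
    (T : ℕ) (hT : 1 ≤ T) :
    (({α : Fin k → ℤ | (∀ i, |α i| ≤ (T : ℤ)) ∧ α ∈ {α : Fin k → ℤ | ∃ i, α i = 0 ∨ ¬ Good (α i).natAbs}}.ncard : ℕ) : ℝ)
      ≤ (k * (2 * |C| + 1) * 3 ^ (k - 1)) * (T : ℝ) ^ ((k : ℝ) - c) := by
  have hT1 : (1 : ℝ) ≤ T := by exact_mod_cast hT
  have hT0 : (0 : ℝ) < T := by linarith
  set Bad : Finset ℤ := (Finset.Icc (-(T : ℤ)) T).filter fun x => x = 0 ∨ ¬ Good x.natAbs with hBad
  set W : Finset ℕ := (Finset.Icc 1 T).filter fun n => ¬ Good n with hW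
  have hBadW : Bad ⊆ {0} ∪ (W.image fun n : ℕ => (n : ℤ)) ∪ W.image fun n : ℕ => -(n : ℤ) := by
    intro x hx
    rw [hBad, mem_filter, Finset.mem_Icc] at hx
    obtain ⟨⟨h1, h2⟩, h3⟩ := hx
    by_cases h0 : x = 0
    · simp [h0]
    · have h4 : ¬ Good x.natAbs := h3.resolve_left h0
      have h5 : x.natAbs ∈ W := by
        rw [hW, mem_filter, Finset.mem_Icc]
        exact ⟨⟨by omega, by omega⟩, h4⟩
      rcases Int.natAbs_eq x with h6 | h6
      · rw [mem_union, mem_union]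
        exact Or.inl (Or.inr (mem_image.2 ⟨_, h5, h6.symm⟩))
      · rw [mem_union]
        exact Or.inr (mem_image.2 ⟨_, h5, h6.symm⟩)
  have hWc : (W.card : ℝ) ≤ |C| * (T : ℝ) ^ (1 - c) := by
    refine le_trans (by exact h T hT) ?_
    exact mul_le_mul_of_nonneg_right (le_abs_self _) (by positivity)
  have hTc : (1 : ℝ) ≤ (T : ℝ) ^ (1 - c) := Real.one_le_rpow hT1 (by linarith)
  have hBc : (Bad.card : ℝ) ≤ (2 * |C| + 1) * (T : ℝ) ^ (1 - c) := by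
    have h1 : Bad.card ≤ 1 + W.card + W.card := by
      refine (card_le_card hBadW).trans ((card_union_le _ _).trans ?_)
      refine add_le_add ((card_union_le _ _).trans (add_le_add (by simp) card_image_le)) card_image_le
    have h2 : (Bad.card : ℝ) ≤ 1 + W.card + W.card := by exact_mod_cast h1
    nlinarith
  have hsub : {α : Fin k → ℤ | (∀ i, |α i| ≤ (T : ℤ)) ∧ α ∈ {α : Fin k → ℤ | ∃ i, α i = 0 ∨ ¬ Good (α i).natAbs}} ⊆
      ((univ.biUnion fun i : Fin k => Fintype.piFinset fun j : Fin k =>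
        if j = i then Bad else Finset.Icc (-(T : ℤ)) T : Finset (Fin k → ℤ)) : Set (Fin k → ℤ)) := by
    rintro α ⟨h1, i, h2⟩
    rw [mem_coe, mem_biUnion]
    refine ⟨i, mem_univ _, Fintype.mem_piFinset.2 fun j => ?_⟩
    split_ifs with h3
    · rw [h3, hBad, mem_filter, Finset.mem_Icc]
      exact ⟨abs_le.1 (h1 i), h2⟩
    · exact Finset.mem_Icc.2 (abs_le.1 (h1 j))
  have h1 := Set.ncard_le_ncard hsub (finite_toSet _)
  rw [Set.ncard_coe_finset] at h1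
  have h2 : ∀ i : Fin k, (Fintype.piFinset fun j : Fin k => if j = i then Bad else Finset.Icc (-(T : ℤ)) T).card =
      Bad.card * (2 * T + 1) ^ (k - 1) := by
    intro i
    rw [Fintype.card_piFinset, ← Finset.mul_prod_erase _ _ (mem_univ i), if_pos rfl]
    congr 1
    rw [Finset.prod_congr rfl (g := fun _ => 2 * T + 1)]
    · rw [prod_const, card_erase_of_mem (mem_univ _), card_univ, Fintype.card_fin]
    · intro j hj
      rw [if_neg (ne_of_mem_erase hj), Int.card_Icc]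
      omega
  have h3 : (univ.biUnion fun i : Fin k => Fintype.piFinset fun j : Fin k =>
        if j = i then Bad else Finset.Icc (-(T : ℤ)) T : Finset (Fin k → ℤ)).card ≤ k * (Bad.card * (2 * T + 1) ^ (k - 1)) := by
    refine card_biUnion_le.trans ?_
    rw [Finset.sum_congr rfl fun i _ => h2 i, sum_const, card_univ, Fintype.card_fin, smul_eq_mul]
  have h4 : (2 * (T : ℝ) + 1) ^ (k - 1) ≤ 3 ^ (k - 1) * (T : ℝ) ^ ((k : ℝ) - 1) := by
    have h5 : (T : ℝ) ^ ((k : ℝ) - 1) = (T : ℝ) ^ (k - 1) := by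
      rw [← Real.rpow_natCast, Nat.cast_sub hk, Nat.cast_one]
    rw [h5, ← mul_pow]
    exact pow_le_pow_left₀ (by positivity) (by linarith) _
  calc _ ≤ ((univ.biUnion fun i : Fin k => Fintype.piFinset fun j : Fin k =>
        if j = i then Bad else Finset.Icc (-(T : ℤ)) T : Finset (Fin k → ℤ)).card : ℝ) := by exact_mod_cast h1
    _ ≤ k * (Bad.card * (2 * (T : ℝ) + 1) ^ (k - 1)) := by exact_mod_cast h3
    _ ≤ k * (((2 * |C| + 1) * (T : ℝ) ^ (1 - c)) * (3 ^ (k - 1) * (T : ℝ) ^ ((k : ℝ) - 1))) := by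
        gcongr
    _ = (k * (2 * |C| + 1) * 3 ^ (k - 1)) * ((T : ℝ) ^ (1 - c) * (T : ℝ) ^ ((k : ℝ) - 1)) := by ring
    _ = (k * (2 * |C| + 1) * 3 ^ (k - 1)) * (T : ℝ) ^ ((k : ℝ) - c) := by
        rw [← Real.rpow_add hT0]
        congr 2
        ring

/-- **Best approximation vectors** -/
theorem best {k : ℕ} (hk : 1 ≤ k) {c : ℝ} (hc : 0 < c) (hc1 : c ≤ 1) : ∃ η : ℝ, 0 < η ∧ ∀ (C : ℝ) (Good : ℕ → Prop),
    Sparse C (1 - c) Good → ∀ (m : ℕ) (β : Fin m → ℝ) (τ : ℝ), 0 < τ →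
      ∃ S : Set (Fin k × Fin m → ℝ), dimH S ≤ ENNReal.ofReal (((k : ℝ) - 1) * m + (m + ((k : ℝ) - η)) / (1 + τ)) ∧
      ∀ α, α ∉ S → ∀ c₁ : ℝ, ∃ Q : ℝ, ∀ v : Fin k → ℤ, Q ≤ ‖v‖ → Near α β v (c₁ * ‖v‖ ^ (-τ)) →
        ∀ a b : Fin k → ℤ, (∀ i, a i ≠ 0 ∧ |(a i : ℝ)| ≤ ‖v‖ ^ η ∧ |(b i : ℝ)| ≤ ‖v‖ ^ η) →
          ∀ i, a i * v i + b i ≠ 0 ∧ Good (a i * v i + b i).natAbs := by
  obtain ⟨η, hη, H⟩ := Pool.Agent.N665.DA.approx_near hk hc
  refine ⟨η, hη, fun C Good hG m β τ hτ => ?_⟩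
  obtain ⟨S, hS, hS2⟩ := H {α : Fin k → ℤ | ∃ i, α i = 0 ∨ ¬ Good (α i).natAbs} _
    (fun T hT => bad_vectors hk hc1 hG T hT) m β τ hτ
  refine ⟨S, hS, fun α hα c₁ => ?_⟩
  obtain ⟨Q, hQ⟩ := hS2 α hα c₁
  refine ⟨Q, fun v hv h1 a b hab i => ?_⟩
  have h2 := hQ v hv h1 a b hab
  constructor
  · intro h0
    exact h2 ⟨i, Or.inl h0⟩
  · by_contra h0
    exact h2 ⟨i, Or.inr h0⟩

end Pool.Agent.J6H45.WF
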