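import Pool.Agent.J6H45.WF.Tr
import Pool.Agent.Results.MP_d74fca_nt.TraceSigns

/-!
# Sparse sets from dyadic counts; the exceptional quadratic twists of the starting theorem TraceSigns
-/

set_option autoImplicit false

open Finset Filter

namespace Pool.Agent.J6H45.WF

open Classical in
/-- If there are at most `N ^ s` exceptions between `N / 2` and `N` for all `N ≥ M`, then the set of the exceptions is
sparse. -/
theorem sparse_dyadic {s : ℝ} (hs : 0 < s) (M : ℕ) : ∃ K : ℝ, ∀ Good : ℕ → Prop,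
    (∀ N : ℕ, M ≤ N → 1 ≤ N → (((Icc 1 N).filter fun n => N < 2 * n ∧ ¬ Good n).card : ℝ) ≤ (N : ℝ) ^ s) →
      Sparse K s Good := by
  have h2s : (2 : ℝ) ^ (-s) < 1 := Real.rpow_lt_one_of_one_lt_of_neg (by norm_num) (by linarith)
  have h2s0 : (0 : ℝ) < 1 - 2 ^ (-s) := by linarith
  set K : ℝ := max (M : ℝ) (max 1 (1 / (1 - 2 ^ (-s)))) with hK
  have hKM : (M : ℝ) ≤ K := le_max_left _ _
  have hK1 : 1 ≤ K := (le_max_left _ _).trans (le_max_right _ _)
  have hK2 : 1 / (1 - (2 : ℝ) ^ (-s)) ≤ K := (le_max_right _ _).trans (le_max_right _ _)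
  have hK3 : K * 2 ^ (-s) + 1 ≤ K := by
    rw [div_le_iff₀ h2s0] at hK2
    linarith
  refine ⟨K * 2 ^ s, fun Good hG => ?_⟩
  have key : ∀ j : ℕ, (((Icc 1 (2 ^ j)).filter fun n => ¬ Good n).card : ℝ) ≤ K * ((2 : ℝ) ^ j) ^ s := by
    intro j
    induction j with
    | zero =>
      have h1 : (((Icc 1 (2 ^ 0)).filter fun n => ¬ Good n).card : ℝ) ≤ 1 := by
        have := card_filter_le (Icc 1 (2 ^ 0)) (fun n => ¬ Good n)
        rw [Nat.card_Icc] at this
        exact_mod_cast this.trans (by norm_num)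
      simpa using h1.trans hK1
    | succ j ih =>
      have hone : (1 : ℝ) ≤ (2 : ℝ) ^ (j + 1) := one_le_pow₀ (by norm_num)
      by_cases hM : M ≤ 2 ^ (j + 1)
      · have h1 := hG (2 ^ (j + 1)) hM Nat.one_le_two_pow
        have hsub : (Icc 1 (2 ^ (j + 1))).filter (fun n => ¬ Good n) ⊆
            (Icc 1 (2 ^ j)).filter (fun n => ¬ Good n) ∪
              (Icc 1 (2 ^ (j + 1))).filter (fun n => 2 ^ (j + 1) < 2 * n ∧ ¬ Good n) := by
          intro n hn
          rw [mem_filter, mem_Icc] at hn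
          rw [mem_union, mem_filter, mem_filter, mem_Icc, mem_Icc]
          by_cases h : n ≤ 2 ^ j
          · exact Or.inl ⟨⟨hn.1.1, h⟩, hn.2⟩
          · refine Or.inr ⟨hn.1, ?_, hn.2⟩
            rw [pow_succ]
            omega
        have h2 : (((Icc 1 (2 ^ (j + 1))).filter fun n => ¬ Good n).card : ℝ) ≤
            (((Icc 1 (2 ^ j)).filter fun n => ¬ Good n).card : ℝ) +
            (((Icc 1 (2 ^ (j + 1))).filter fun n => 2 ^ (j + 1) < 2 * n ∧ ¬ Good n).card : ℝ) := by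
          exact_mod_cast (card_le_card hsub).trans (card_union_le _ _)
        have h3 : ((2 : ℝ) ^ j) ^ s = 2 ^ (-s) * ((2 : ℝ) ^ (j + 1)) ^ s := by
          rw [pow_succ, Real.mul_rpow (by positivity) (by norm_num), Real.rpow_neg (by norm_num)]
          field_simp
        have h4 : 0 ≤ ((2 : ℝ) ^ (j + 1)) ^ s := by positivity
        push_cast at h1
        calc _ ≤ K * ((2 : ℝ) ^ j) ^ s + ((2 : ℝ) ^ (j + 1)) ^ s := h2.trans (add_le_add ih h1)
          _ = (K * 2 ^ (-s) + 1) * ((2 : ℝ) ^ (j + 1)) ^ s := by rw [h3]; ring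
          _ ≤ K * ((2 : ℝ) ^ (j + 1)) ^ s := mul_le_mul_of_nonneg_right hK3 h4
      · push Not at hM
        have h1 : (((Icc 1 (2 ^ (j + 1))).filter fun n => ¬ Good n).card : ℝ) ≤ M := by
          have := card_filter_le (Icc 1 (2 ^ (j + 1))) (fun n => ¬ Good n)
          rw [Nat.card_Icc] at this
          exact_mod_cast this.trans (by omega)
        have h2 : (1 : ℝ) ≤ ((2 : ℝ) ^ (j + 1)) ^ s := Real.one_le_rpow hone hs.le
        nlinarith
  intro X hX
  have h1 := Nat.lt_pow_succ_log_self (b := 2) (by norm_num) X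
  have h2 := Nat.pow_log_le_self 2 (by omega : X ≠ 0)
  have hsub : (Icc 1 X).filter (fun n => ¬ Good n) ⊆ (Icc 1 (2 ^ (Nat.log 2 X + 1))).filter (fun n => ¬ Good n) := by
    refine filter_subset_filter _ (Icc_subset_Icc_right ?_)
    exact h1.le
  have h3 : (((Icc 1 X).filter fun n => ¬ Good n).card : ℝ) ≤ K * ((2 : ℝ) ^ (Nat.log 2 X + 1)) ^ s := by
    refine le_trans ?_ (key _)
    exact_mod_cast card_le_card hsub
  refine h3.trans ?_
  rw [mul_assoc]
  refine mul_le_mul_of_nonneg_left ?_ (by linarith)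
  rw [← Real.mul_rpow (by norm_num) (by positivity)]
  refine Real.rpow_le_rpow (by positivity) ?_ hs.le
  rw [pow_succ, mul_comm]
  have : ((2 ^ Nat.log 2 X : ℕ) : ℝ) ≤ X := by exact_mod_cast h2
  push_cast at this
  linarith

open Pool.Agent.W406.TW (piT)

/-- For all `x` with `(log |D|) ^ C ≤ x ≤ |D| ^ c` and all `t ≠ 0` the number of the primes up to `x` with trace `t` for the
quadratic twist by `D` of the curve `y² = x³ + A x + B` is the mean of the numbers of the primes with trace `t` and with trace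
`-t` for the curve itself, with an error at most `√n x ^ ε`, where `n` is the sum of these two numbers. -/
def TwistLaw (C c ε : ℝ) (A B D : ℤ) : Prop :=
  ∀ x : ℕ, Real.log |(D : ℝ)| ^ C ≤ x → (x : ℝ) ≤ |(D : ℝ)| ^ c → ∀ t : ℤ, t ≠ 0 →
    |(piT (A * D ^ 2) (B * D ^ 3) t x : ℝ) - (piT A B t x + piT A B (-t) x) / 2| ≤
      √((piT A B t x : ℝ) + piT A B (-t) x) * (x : ℝ) ^ ε

/-- The exceptional twists are sparse, uniformly in the curve. -/
theorem sparse_twists (ε : ℝ) (hε : 0 < ε) : ∃ C c K : ℝ, 0 < C ∧ 0 < c ∧ c < 1 ∧ ∀ A B : ℤ,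
    Sparse K (1 - c) (fun n => ∀ D : ℤ, D.natAbs = n → TwistLaw C c ε A B D) := by
  classical
  obtain ⟨C, c, hC, hc, N₀, h⟩ := Pool.Agent.Results.MP_d74fca_nt.TraceSigns.result ε hε
  set c₁ : ℝ := min c (1 / 2) with hc₁
  have hc1 : 0 < c₁ := lt_min hc (by norm_num)
  have hc2 : c₁ ≤ c := min_le_left _ _
  have hc3 : c₁ ≤ 1 / 2 := min_le_right _ _
  -- the ranges
  have hlog : ∀ᶠ N : ℕ in atTop, ∀ n : ℕ, N < 2 * n → Real.log N ^ C ≤ Real.log n ^ (C + 1) := by
    have h1 : Tendsto (fun N : ℕ => Real.log (N : ℝ)) atTop atTop :=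
      Real.tendsto_log_atTop.comp tendsto_natCast_atTop_atTop
    filter_upwards [h1.eventually_ge_atTop (2 ^ (C + 1) + 2 * Real.log 2 + 1), eventually_ge_atTop 1] with N hN hN1 n hn
    have h2 : (0 : ℝ) < (2 : ℝ) ^ (C + 1) := by positivity
    have hl2 : 0 < Real.log 2 := Real.log_pos (by norm_num)
    have hL : 0 < Real.log (N : ℝ) := by linarith
    have hn1 : (0 : ℝ) < n := by
      have : 0 < n := by omega
      exact_mod_cast this
    have h3 : Real.log N - Real.log 2 ≤ Real.log n := by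
      rw [sub_le_iff_le_add, ← Real.log_mul hn1.ne' (by norm_num)]
      refine Real.log_le_log (by exact_mod_cast hN1) ?_
      have : (N : ℝ) ≤ ((2 * n : ℕ) : ℝ) := by exact_mod_cast hn.le
      push_cast at this
      linarith
    have h4 : Real.log N / 2 ≤ Real.log n := by linarith
    calc Real.log N ^ C = Real.log N ^ C * 1 := by ring
      _ ≤ Real.log N ^ C * (Real.log N / 2 ^ (C + 1)) := by
          refine mul_le_mul_of_nonneg_left ?_ (by positivity)
          rw [one_le_div h2]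
          linarith
      _ = (Real.log N / 2) ^ (C + 1) := by
          rw [Real.div_rpow hL.le (by norm_num), Real.rpow_add_one hL.ne']
          ring
      _ ≤ Real.log n ^ (C + 1) := Real.rpow_le_rpow (by positivity) h4 (by linarith)
  obtain ⟨N₁, hN₁⟩ := eventually_atTop.1 hlog
  obtain ⟨K, hK⟩ := sparse_dyadic (s := 1 - c₁) (by linarith) (max N₀ N₁)
  refine ⟨C + 1, c₁, K, by linarith, hc1, by linarith, fun A B => hK _ fun N hN hN1 => ?_⟩
  have hN0 : N₀ ≤ N := (le_max_left _ _).trans hN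
  have hN2 : N₁ ≤ N := (le_max_right _ _).trans hN
  have h1 := h N hN0 A B
  set E : Set ℤ := {D : ℤ | D ≠ 0 ∧ |D| ≤ N ∧ ∃ x : ℕ, (Real.log N) ^ C ≤ x ∧ (x : ℝ) ≤ (N : ℝ) ^ c ∧
        ∃ t : ℤ, t ≠ 0 ∧ √((piT A B t x : ℝ) + piT A B (-t) x) * (x : ℝ) ^ ε <
          |(piT (A * D ^ 2) (B * D ^ 3) t x : ℝ) - (piT A B t x + piT A B (-t) x) / 2|} with hE
  have hEfin : E.Finite := (Set.finite_Icc (-(N : ℤ)) N).subset fun D hD => abs_le.1 hD.2.1
  have hN1' : (1 : ℝ) ≤ N := by exact_mod_cast hN1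
  have hsub : (((Icc 1 N).filter fun n => N < 2 * n ∧ ¬ ∀ D : ℤ, D.natAbs = n → TwistLaw (C + 1) c₁ ε A B D : Finset ℕ) :
      Set ℕ) ⊆ Int.natAbs '' E := by
    intro n hn
    rw [mem_coe, mem_filter, mem_Icc] at hn
    obtain ⟨⟨hn1, hnN⟩, hn2, hn3⟩ := hn
    push Not at hn3
    obtain ⟨D, hD, hbad⟩ := hn3
    unfold TwistLaw at hbad
    push Not at hbad
    obtain ⟨x, hx1, hx2, t, ht, hlt⟩ := hbad
    have hDn : |(D : ℝ)| = n := by
      rw [← hD, ← Int.cast_abs, Int.abs_eq_natAbs]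
      simp
    have hnr : (1 : ℝ) ≤ n := by exact_mod_cast hn1
    rw [hDn] at hx1 hx2
    refine ⟨D, ⟨?_, ?_, x, (hN₁ N hN2 n hn2).trans hx1, hx2.trans ?_, t, ht, hlt⟩, hD⟩
    · rintro rfl
      simp at hD
      omega
    · rw [Int.abs_eq_natAbs, hD]
      exact_mod_cast hnN
    · calc (n : ℝ) ^ c₁ ≤ (n : ℝ) ^ c := Real.rpow_le_rpow_of_exponent_le hnr hc2
        _ ≤ (N : ℝ) ^ c := Real.rpow_le_rpow (by linarith) (by exact_mod_cast hnN) hc.le
  have h2 := (Set.ncard_le_ncard hsub (hEfin.image _)).trans (Set.ncard_image_le hEfin)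
  rw [Set.ncard_coe_finset] at h2
  calc _ ≤ ((E.ncard : ℕ) : ℝ) := by exact_mod_cast h2
    _ ≤ (N : ℝ) ^ (1 - c) := h1
    _ ≤ (N : ℝ) ^ (1 - c₁) := Real.rpow_le_rpow_of_exponent_le hN1' (by linarith)

end Pool.Agent.J6H45.WF
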