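import Mathlib

/-!
# From few exceptional integers in every window to a power saving

In every window `[N, N + H]` with `(H + 2) ^ E ≤ N` there are at most `Q` exceptional integers such that all configurations of
integers in the window which avoid them are good. Then for all natural numbers `n ≤ X` but `C X ^ (1 - 1 / (2 E) + κ)` ALL
configurations in the window of radius `n ^ κ` around `n` are good.
-/

set_option autoImplicit false

open Finset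

namespace Pool.Agent.J6H45.WF

/-- At most `Q` exceptional integers in every window `[N, N + H]` with `(H + 2) ^ E ≤ N`, for both signs. -/
def Windows {τ : Type} (pts : τ → Set ℤ) (good : τ → Prop) (E Q : ℕ) : Prop :=
  ∀ N H : ℕ, (H + 2) ^ E ≤ N → ∀ ε : ℤ, (ε = 1 ∨ ε = -1) →
    ∃ S : Finset ℤ, S.card ≤ Q ∧ ∀ t, (∀ x ∈ pts t, (N : ℤ) ≤ ε * x ∧ ε * x ≤ N + H ∧ x ∉ S) → good t

/-- All configurations in the window of radius `n ^ κ` around `n` or `-n` are good. -/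
def GoodNear {τ : Type} (pts : τ → Set ℤ) (good : τ → Prop) (κ : ℝ) (n : ℕ) : Prop :=
  ∀ ε : ℤ, (ε = 1 ∨ ε = -1) → ∀ t, (∀ x ∈ pts t, |((ε * x : ℤ) : ℝ) - n| ≤ (n : ℝ) ^ κ) → good t

lemma card_near (y h : ℝ) (hh : 0 ≤ h) : (Finset.Icc ⌈y - h⌉ ⌊y + h⌋).card ≤ ⌊2 * h + 1⌋₊ := by
  rw [Int.card_Icc]
  apply Nat.le_floor
  have h1 : ((⌊y + h⌋ : ℤ) : ℝ) ≤ y + h := Int.floor_le _
  have h2 : y - h ≤ ((⌈y - h⌉ : ℤ) : ℝ) := Int.le_ceil _
  rcases le_or_gt (⌊y + h⌋ + 1 - ⌈y - h⌉) 0 with h3 | h3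
  · rw [Int.toNat_of_nonpos h3]
    simp only [Nat.cast_zero]
    linarith
  · have h4 : ((⌊y + h⌋ + 1 - ⌈y - h⌉).toNat : ℤ) = ⌊y + h⌋ + 1 - ⌈y - h⌉ := Int.toNat_of_nonneg h3.le
    have h5 : (((⌊y + h⌋ + 1 - ⌈y - h⌉).toNat : ℤ) : ℝ) = (⌊y + h⌋ : ℝ) + 1 - ⌈y - h⌉ := by
      rw [h4]; push_cast; ring
    have h6 : (((⌊y + h⌋ + 1 - ⌈y - h⌉).toNat : ℕ) : ℝ) = (⌊y + h⌋ : ℝ) + 1 - ⌈y - h⌉ := by
      rw [← h5]; norm_cast
    rw [h6]
    linarith

open Classical in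
/-- the main step, for one scale -/
theorem few_scale {τ : Type} {pts : τ → Set ℤ} {good : τ → Prop} {E Q : ℕ} (hw : Windows pts good E Q) {κ : ℝ}
    (hκ : 0 ≤ κ) {X r Hc L : ℕ} {h : ℝ} (hh : (X : ℝ) ^ κ ≤ h) (hr : (Hc + 2) ^ E ≤ r) (hL : 1 ≤ L)
    (hLH : (L : ℝ) + 1 + 2 * h ≤ Hc) :
    (((Icc 1 X).filter fun n => ¬ GoodNear pts good κ n).card : ℝ) ≤
      (r + h + 1) + ((X : ℝ) / L + 1) * (2 * (Q * (2 * h + 1))) := by
  have h0 : 0 ≤ h := le_trans (by positivity) hh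
  have hw' : ∀ (N : ℕ) (ε : ℤ), r ≤ N → (ε = 1 ∨ ε = -1) →
      ∃ S : Finset ℤ, S.card ≤ Q ∧ ∀ t, (∀ x ∈ pts t, (N : ℤ) ≤ ε * x ∧ ε * x ≤ N + Hc ∧ x ∉ S) → good t :=
    fun N ε hN hε => hw N Hc (hr.trans hN) ε hε
  choose! S hS1 hS2 using hw'
  set T : Finset ℤ := (range (X / L + 1)).biUnion fun j => ({1, -1} : Finset ℤ).biUnion fun ε =>
    (S (r + j * L) ε).biUnion fun x => Finset.Icc ⌈((ε * x : ℤ) : ℝ) - h⌉ ⌊((ε * x : ℤ) : ℝ) + h⌋ with hT
  have hTc : T.card ≤ (X / L + 1) * (2 * (Q * ⌊2 * h + 1⌋₊)) := by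
    refine (Finset.card_biUnion_le_card_mul _ _ (2 * (Q * ⌊2 * h + 1⌋₊)) fun j _ => ?_).trans (by rw [card_range])
    refine (Finset.card_biUnion_le_card_mul _ _ (Q * ⌊2 * h + 1⌋₊) fun ε hε => ?_).trans ?_
    · refine (Finset.card_biUnion_le_card_mul _ _ ⌊2 * h + 1⌋₊ fun x _ => card_near _ _ h0).trans ?_
      exact Nat.mul_le_mul_right _ (hS1 _ _ (Nat.le_add_right _ _) (by simpa using hε))
    · exact Nat.mul_le_mul_right _ (Finset.card_le_two)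
  set A : Finset ℕ := (Icc 1 X).filter fun n => ¬ GoodNear pts good κ n with hA
  have hsplit : A.card ≤ ⌊r + h + 1⌋₊ + T.card := by
    have h1 : A ⊆ (Icc 1 ⌊(r : ℝ) + h + 1⌋₊) ∪ (A.filter fun n => (r : ℝ) + h + 1 < n) := by
      intro n hn
      rw [mem_union, mem_filter, mem_Icc]
      by_cases hc : (r : ℝ) + h + 1 < n
      · exact Or.inr ⟨hn, hc⟩
      · left
        rw [hA, mem_filter, mem_Icc] at hn
        exact ⟨hn.1.1, Nat.le_floor (not_lt.1 hc)⟩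
    refine (card_le_card h1).trans ((card_union_le _ _).trans (Nat.add_le_add (by simp) ?_))
    refine Finset.card_le_card_of_injOn (fun n : ℕ => (n : ℤ)) ?_ (fun a _ b _ hab => Nat.cast_injective (R := ℤ) hab)
    intro n hn
    rw [mem_coe, mem_filter, hA, mem_filter, mem_Icc] at hn
    obtain ⟨⟨⟨hn1, hnX⟩, hbad⟩, hbig⟩ := hn
    unfold GoodNear at hbad
    push Not at hbad
    obtain ⟨ε, hε, t, ht, hgood⟩ := hbad
    have hnh : (n : ℝ) ^ κ ≤ h := by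
      refine le_trans ?_ hh
      exact Real.rpow_le_rpow (Nat.cast_nonneg _) (by exact_mod_cast hnX) hκ
    have hm0 : 0 ≤ (n : ℝ) - h := by linarith [(Nat.cast_nonneg r : (0 : ℝ) ≤ r)]
    obtain ⟨m, hm⟩ : ∃ m, m = ⌊(n : ℝ) - h⌋₊ := ⟨_, rfl⟩
    have hm1 : (m : ℝ) ≤ n - h := by rw [hm]; exact Nat.floor_le hm0
    have hm2 : (n : ℝ) - h < m + 1 := by rw [hm]; exact Nat.lt_floor_add_one _
    have hmr : r ≤ m := by
      have : (r : ℝ) < m := by linarith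
      exact_mod_cast this.le
    obtain ⟨j, hj⟩ : ∃ j, j = (m - r) / L := ⟨_, rfl⟩
    have hj1 : j * L ≤ m - r := by rw [hj]; exact Nat.div_mul_le_self _ _
    have hj2 : m - r < (j + 1) * L := by
      rw [hj, mul_comm]
      exact Nat.lt_mul_div_succ _ (by omega)
    have hN1 : r + j * L ≤ m := by omega
    have hN2 : m < r + j * L + L := by
      have : (j + 1) * L = j * L + L := by ring
      omega
    have hmn : m ≤ n := by
      have : (m : ℝ) ≤ n := by linarith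
      exact_mod_cast this
    have hjX : j ∈ range (X / L + 1) := by
      rw [mem_range, Nat.lt_succ_iff, hj]
      exact Nat.div_le_div_right (by omega)
    have hex : ∃ x ∈ pts t, x ∈ S (r + j * L) ε := by
      by_contra hno
      push Not at hno
      refine hgood (hS2 (r + j * L) ε (Nat.le_add_right _ _) hε t fun x hx => ?_)
      have h3 := abs_le.1 ((ht x hx).trans hnh)
      have h4 : ((r + j * L : ℕ) : ℝ) ≤ ((ε * x : ℤ) : ℝ) := by
        have : ((r + j * L : ℕ) : ℝ) ≤ m := by exact_mod_cast hN1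
        linarith
      have h5 : ((ε * x : ℤ) : ℝ) ≤ ((r + j * L : ℕ) : ℝ) + Hc := by
        have h6 : (m : ℝ) + 1 ≤ ((r + j * L : ℕ) : ℝ) + L := by exact_mod_cast hN2
        linarith
      exact ⟨by exact_mod_cast h4, by exact_mod_cast h5, hno x hx⟩
    obtain ⟨x, hx, hxS⟩ := hex
    have h3 := abs_le.1 ((ht x hx).trans hnh)
    show (n : ℤ) ∈ (T : Set ℤ)
    rw [mem_coe, hT, mem_biUnion]
    refine ⟨j, hjX, mem_biUnion.2 ⟨ε, by simpa using hε, mem_biUnion.2 ⟨x, hxS, mem_Icc.2 ⟨?_, ?_⟩⟩⟩⟩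
    · rw [Int.ceil_le]
      push_cast at h3 ⊢
      linarith
    · rw [Int.le_floor]
      push_cast at h3 ⊢
      linarith
  have h1 : (A.card : ℝ) ≤ ((⌊(r : ℝ) + h + 1⌋₊ + (X / L + 1) * (2 * (Q * ⌊2 * h + 1⌋₊)) : ℕ) : ℝ) := by
    exact_mod_cast hsplit.trans (Nat.add_le_add_left hTc _)
  refine h1.trans ?_
  push_cast
  have h2 : ((⌊(r : ℝ) + h + 1⌋₊ : ℕ) : ℝ) ≤ r + h + 1 := Nat.floor_le (by positivity)
  have h3 : ((⌊2 * h + 1⌋₊ : ℕ) : ℝ) ≤ 2 * h + 1 := Nat.floor_le (by positivity)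
  have h4 : (((X / L : ℕ)) : ℝ) ≤ (X : ℝ) / L := Nat.cast_div_le
  have h5 : (0 : ℝ) ≤ Q := Nat.cast_nonneg _
  gcongr

open Classical in
/-- **Few exceptional windows.** The constant depends on `E`, `Q`, `κ` only. -/
theorem few (E Q : ℕ) (hE : 1 ≤ E) (κ : ℝ) (hκ : 0 ≤ κ) : ∃ C : ℝ, 0 ≤ C ∧
    ∀ {τ : Type} {pts : τ → Set ℤ} {good : τ → Prop}, Windows pts good E Q → ∀ X : ℕ, 1 ≤ X →
      (((Icc 1 X).filter fun n => ¬ GoodNear pts good κ n).card : ℝ) ≤ C * (X : ℝ) ^ (1 - 1 / (2 * (E : ℝ)) + κ) := by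
  obtain ⟨b, hb⟩ : ∃ b : ℝ, b = 1 / (2 * (E : ℝ)) := ⟨_, rfl⟩
  have hE' : (1 : ℝ) ≤ E := by exact_mod_cast hE
  have hb0 : 0 < b := by rw [hb]; positivity
  have hb1 : b ≤ 1 / 2 := by
    rw [hb]
    apply one_div_le_one_div_of_le (by norm_num)
    linarith
  rw [← hb]
  have hbE : b * E = 1 / 2 := by
    rw [hb]
    field_simp
  have htriv : ∀ {τ : Type} {pts : τ → Set ℤ} {good : τ → Prop} (X : ℕ),
      (((Icc 1 X).filter fun n => ¬ GoodNear pts good κ n).card : ℝ) ≤ X := by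
    intro τ pts good X
    have h1 := Finset.card_filter_le (Icc 1 X) fun n => ¬ GoodNear pts good κ n
    rw [Nat.card_Icc, Nat.add_sub_cancel] at h1
    exact_mod_cast h1
  rcases le_or_gt b κ with hbk | hbk
  · refine ⟨1, zero_le_one, fun {τ pts good} hw X hX => (htriv X).trans ?_⟩
    have hX1 : (1 : ℝ) ≤ X := by exact_mod_cast hX
    rw [one_mul]
    calc (X : ℝ) = (X : ℝ) ^ (1 : ℝ) := (Real.rpow_one _).symm
      _ ≤ _ := Real.rpow_le_rpow_of_exponent_le hX1 (by linarith)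
  · obtain ⟨X₀, hX₀⟩ : ∃ X₀ : ℕ, ∀ X : ℕ, X₀ ≤ X → (64 : ℝ) ≤ (X : ℝ) ^ b ∧ (16 : ℝ) ≤ (X : ℝ) ^ (b - κ) := by
      have h1 := (tendsto_rpow_atTop hb0).comp (tendsto_natCast_atTop_atTop (R := ℝ))
      have h2 := (tendsto_rpow_atTop (sub_pos.2 hbk)).comp (tendsto_natCast_atTop_atTop (R := ℝ))
      obtain ⟨N, hN⟩ := Filter.eventually_atTop.1 ((h1.eventually_ge_atTop 64).and (h2.eventually_ge_atTop 16))
      exact ⟨N, fun X hX => hN X hX⟩
    refine ⟨X₀ + (4 + 102 * Q), by positivity, fun {τ pts good} hw X hX => ?_⟩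
    have hX1 : (1 : ℝ) ≤ X := by exact_mod_cast hX
    have hX0 : (0 : ℝ) < X := by linarith
    have hp1 : (1 : ℝ) ≤ (X : ℝ) ^ (1 - b + κ) := Real.one_le_rpow hX1 (by linarith)
    rcases lt_or_ge X X₀ with hlt | hge
    · refine (htriv X).trans ?_
      have h1 : (X : ℝ) ≤ X₀ := by exact_mod_cast hlt.le
      have h2 : (0 : ℝ) ≤ 4 + 102 * Q := by positivity
      nlinarith [(Nat.cast_nonneg X₀ : (0 : ℝ) ≤ X₀)]
    · obtain ⟨h64, h16⟩ := hX₀ X hge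
      obtain ⟨x, hx⟩ : ∃ x : ℝ, x = (X : ℝ) ^ b := ⟨_, rfl⟩
      rw [← hx] at h64
      obtain ⟨h, hh⟩ : ∃ h : ℝ, h = (X : ℝ) ^ κ := ⟨_, rfl⟩
      have hh1 : 1 ≤ h := by rw [hh]; exact Real.one_le_rpow hX1 hκ
      have hhx : 16 * h ≤ x := by
        rw [hh, hx]
        have h1 : (X : ℝ) ^ b = (X : ℝ) ^ (b - κ) * (X : ℝ) ^ κ := by
          rw [← Real.rpow_add hX0]
          congr 1
          ring
        rw [h1]
        exact mul_le_mul_of_nonneg_right h16 (by positivity)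
      obtain ⟨Hc, hHc⟩ : ∃ Hc : ℕ, Hc = ⌊x⌋₊ - 2 := ⟨_, rfl⟩
      have hfx : (⌊x⌋₊ : ℝ) ≤ x := Nat.floor_le (by linarith)
      have hfx2 : x < ⌊x⌋₊ + 1 := Nat.lt_floor_add_one x
      have hf2 : 2 ≤ ⌊x⌋₊ := Nat.le_floor (by push_cast; linarith)
      have hHc2 : Hc + 2 = ⌊x⌋₊ := by omega
      have hHcr : (Hc : ℝ) = (⌊x⌋₊ : ℝ) - 2 := by
        have : ((Hc + 2 : ℕ) : ℝ) = (⌊x⌋₊ : ℝ) := by exact_mod_cast congrArg (Nat.cast (R := ℝ)) hHc2
        push_cast at this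
        linarith
      obtain ⟨r, hr⟩ : ∃ r : ℕ, r = ⌈(X : ℝ) ^ (1 / 2 : ℝ)⌉₊ := ⟨_, rfl⟩
      have hr1 : (Hc + 2) ^ E ≤ r := by
        have h1 : (((Hc + 2) ^ E : ℕ) : ℝ) ≤ (X : ℝ) ^ (1 / 2 : ℝ) := by
          rw [hHc2]
          push_cast
          calc ((⌊x⌋₊ : ℝ)) ^ E ≤ x ^ E := pow_le_pow_left₀ (Nat.cast_nonneg _) hfx _
            _ = (X : ℝ) ^ (1 / 2 : ℝ) := by
              rw [hx, ← Real.rpow_natCast, ← Real.rpow_mul hX0.le, hbE]
        have h2 : (X : ℝ) ^ (1 / 2 : ℝ) ≤ r := by rw [hr]; exact Nat.le_ceil _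
        exact_mod_cast h1.trans h2
      obtain ⟨L, hL⟩ : ∃ L : ℕ, L = ⌊x / 8⌋₊ := ⟨_, rfl⟩
      have hL1 : 1 ≤ L := by rw [hL]; exact Nat.le_floor (by push_cast; linarith)
      have hLx : (L : ℝ) ≤ x / 8 := by rw [hL]; exact Nat.floor_le (by linarith)
      have hLx2 : x / 8 < L + 1 := by rw [hL]; exact Nat.lt_floor_add_one _
      have h1 := few_scale hw hκ (X := X) (r := r) (Hc := Hc) (L := L) (h := h) hh.ge hr1 hL1 (by
        rw [hHcr]
        linarith)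
      refine h1.trans ?_
      have hr2 : (r : ℝ) ≤ (X : ℝ) ^ (1 / 2 : ℝ) + 1 := by
        rw [hr]
        exact (Nat.ceil_lt_add_one (by positivity)).le
      have hLpos : (0 : ℝ) < L := by exact_mod_cast hL1
      have hXL : (X : ℝ) / L ≤ 16 * (X : ℝ) ^ (1 - b) := by
        rw [div_le_iff₀ hLpos]
        have h2 : x / 16 ≤ L := by linarith
        have h3 : (X : ℝ) = (X : ℝ) ^ (1 - b) * x := by
          rw [hx, ← Real.rpow_add hX0]
          simp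
        calc (X : ℝ) = (X : ℝ) ^ (1 - b) * x := h3
          _ = 16 * (X : ℝ) ^ (1 - b) * (x / 16) := by ring
          _ ≤ 16 * (X : ℝ) ^ (1 - b) * L := mul_le_mul_of_nonneg_left h2 (by positivity)
      have hp2 : (1 : ℝ) ≤ (X : ℝ) ^ (1 - b) := Real.one_le_rpow hX1 (by linarith)
      have hp3 : (X : ℝ) ^ (1 / 2 : ℝ) ≤ (X : ℝ) ^ (1 - b + κ) := Real.rpow_le_rpow_of_exponent_le hX1 (by linarith)
      have hp4 : h ≤ (X : ℝ) ^ (1 - b + κ) := by
        rw [hh]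
        exact Real.rpow_le_rpow_of_exponent_le hX1 (by linarith)
      have hp5 : (X : ℝ) ^ (1 - b) * h = (X : ℝ) ^ (1 - b + κ) := by
        rw [hh, ← Real.rpow_add hX0]
      have hQ : (0 : ℝ) ≤ Q := Nat.cast_nonneg _
      have hmain : ((X : ℝ) / L + 1) * (2 * (Q * (2 * h + 1))) ≤ 102 * Q * (X : ℝ) ^ (1 - b + κ) := by
        calc ((X : ℝ) / L + 1) * (2 * (Q * (2 * h + 1)))
            ≤ (17 * (X : ℝ) ^ (1 - b)) * (2 * (Q * (3 * h))) := by
              refine mul_le_mul (by linarith) ?_ (by positivity) (by positivity)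
              have : 2 * h + 1 ≤ 3 * h := by linarith
              gcongr
          _ = 102 * Q * ((X : ℝ) ^ (1 - b) * h) := by ring
          _ = _ := by rw [hp5]
      have hX00 : (0 : ℝ) ≤ X₀ := Nat.cast_nonneg _
      have hfin : (X₀ : ℝ) * (X : ℝ) ^ (1 - b + κ) ≥ 0 := by positivity
      nlinarith

end Pool.Agent.J6H45.WF
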