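import Pool.Agent.Results.MP_eeb1a4_ag.HodgeAlgebraicWindows
import Pool.Agent.J6H45.WF.AlgW
import Pool.Agent.J6H45.WF.Tr

/-!
# Hodge generic fibres at the points `1 / (t + α)`, for all integers `t` in short windows and all `α` of bounded height
-/

set_option autoImplicit false

open Finset

namespace Pool.Agent.J6H45.WF.H

open Pool.Agent.Results.MP_eeb1a4_ag.HodgeAlgebraicWindows (RationalStructure HodgeGeneric)

/-- For all integers `t` in the window of radius `n ^ θ` around `n`, or around `-n`, and all algebraic numbers `α` of degree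
at most `g` and height at most `B` the fibre at the point `z = 1 / (t + α)` is Hodge generic. -/
def GoodFibres {m : ℕ} (β : Fin m → ℚ) (C : Matrix (Fin (2 * m)) (Fin (2 * m)) ℂ)
    (A : Matrix (Fin (2 * m)) (Fin (2 * m)) ℚ) (g B : ℕ) (θ : ℝ) (n : ℕ) : Prop :=
  ∀ ε : ℤ, (ε = 1 ∨ ε = -1) → ∀ t : ℤ, |((ε * t : ℤ) : ℝ) - n| ≤ (n : ℝ) ^ θ →
    ∀ α ∈ AlgNum g B, HodgeGeneric β ((t : ℂ) + α) C A

open Classical in
theorem sparse_H {m : ℕ} (hm : 2 ≤ m) (β : Fin m → ℚ) (hβ : ∀ j, 0 < β j ∧ β j < 1) (g B : ℕ) :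
    ∃ c : ℝ, 0 < c ∧ c ≤ 1 ∧ ∀ θ : ℝ, 0 ≤ θ → ∃ K : ℝ, ∀ (C : Matrix (Fin (2 * m)) (Fin (2 * m)) ℂ)
      (A : Matrix (Fin (2 * m)) (Fin (2 * m)) ℚ), RationalStructure C A →
      Sparse K (1 - c + θ) (GoodFibres β C A g B θ) := by
  obtain ⟨G0, hG0⟩ := (Pool.Agent.Results.MP_eeb1a4_ag.HodgeAlgebraicWindows.result hm β hβ).1
  obtain ⟨E, hE⟩ := hG0 (max G0 1) (le_max_left _ _) g (g + 1)
  obtain ⟨E', Q', hE', hw⟩ := windows_alg g B (max G0 1) E (m + 1) (le_max_right _ _)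
  refine ⟨1 / (2 * (E' : ℝ)), by positivity, ?_, fun θ hθ => ?_⟩
  · have h1 : (1 : ℝ) ≤ E' := by exact_mod_cast hE'
    rw [div_le_one (by positivity)]
    linarith
  obtain ⟨K, -, hK⟩ := few E' Q' hE' θ hθ
  refine ⟨K, fun C A hCA X hX => ?_⟩
  have h1 := hK (hw (fun ξ => HodgeGeneric β ξ C A) fun H ξ hξ hht => (hE H ξ hξ hht).2 C A hCA) X hX
  refine le_trans ?_ h1
  have hsub : (Icc 1 X).filter (fun n => ¬ GoodFibres β C A g B θ n) ⊆ (Icc 1 X).filter fun n => ¬ GoodNear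
      (fun t : ℤ => {t}) (fun t => ∀ α ∈ AlgNum g B, HodgeGeneric β ((t : ℂ) + α) C A) θ n := by
    intro n hn
    rw [mem_filter] at hn ⊢
    refine ⟨hn.1, fun h => hn.2 fun ε hε t ht α hα => h ε hε t ?_ α hα⟩
    intro x hx
    rw [Set.mem_singleton_iff.1 hx]
    exact ht
  exact_mod_cast card_le_card hsub

end Pool.Agent.J6H45.WF.H
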