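import Pool.Agent.Results.MP_f58a57_nt.GrowingDegreeWindows
import Pool.Agent.J6H45.WF.Few
import Pool.Agent.J6H45.WF.Tr

/-!
# The numbers `z_i`, `j'(z_i)`, `j''(z_i)` for distinct integral invariants: almost all windows have no exceptions
-/

set_option autoImplicit false

open Finset

namespace Pool.Agent.J6H45.WF

open Pool.Agent.Results.MP_f58a57_nt.GrowingDegreeWindows (J values generic)

/-- Every relation of degree at most `δ` over a number field of degree at most `δ` between `2 π i, w_1, …, w_q` and the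
`3 k` numbers `z_i`, `j'(z_i)`, `j''(z_i)` is trivial: the polynomial is zero after the substitution of
`2 π i, w_1, …, w_q`. -/
def Free {q k : ℕ} (δ : ℕ) (w : Fin q → ℂ) (z : Fin k → ℂ) : Prop :=
  ∀ K : IntermediateField ℚ ℂ, FiniteDimensional ℚ K → Module.finrank ℚ K ≤ δ →
    ∀ P : MvPolynomial (Option (Fin q) ⊕ Fin k × Fin 3) K, P.totalDegree ≤ δ →
      MvPolynomial.aeval (values w z) P = 0 → MvPolynomial.aeval (generic (k := k) w) P = 0

/-- For all distinct integers `t_1, …, t_k` in the window of radius `n ^ θ` around `n`, or around `-n`, and all points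
`z_i` of the upper half-plane with `j(z_i) = t_i` all relations are trivial. -/
def GoodWindow (k : ℕ) {q : ℕ} (δ : ℕ) (w : Fin q → ℂ) (θ : ℝ) (n : ℕ) : Prop :=
  ∀ ε : ℤ, (ε = 1 ∨ ε = -1) → ∀ t : Fin k → ℤ, Function.Injective t →
    (∀ i, |((ε * t i : ℤ) : ℝ) - n| ≤ (n : ℝ) ^ θ) →
    ∀ z : Fin k → ℂ, (∀ i, 0 < (z i).im ∧ J (z i) = t i) → Free δ w z

open Classical in
theorem sparse_J (q k : ℕ) : ∃ C : ℕ, ∀ (δ : ℕ) (θ : ℝ), 0 ≤ θ → ∃ K : ℝ, ∀ w : Fin q → ℂ,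
    Sparse K (1 - 1 / (2 * ((δ : ℝ) + 2) ^ C) + θ) (GoodWindow k δ w θ) := by
  obtain ⟨C, hC⟩ := Pool.Agent.Results.MP_f58a57_nt.GrowingDegreeWindows.result q k
  refine ⟨C, fun δ θ hθ => ?_⟩
  obtain ⟨K, hK0, hK⟩ := few ((δ + 2) ^ C) (q + 2) (Nat.one_le_pow _ _ (by omega)) θ hθ
  refine ⟨K, fun w X hX => ?_⟩
  have hw : Windows (fun t : Fin k → ℤ => Set.range t)
      (fun t => Function.Injective t → ∀ z : Fin k → ℂ, (∀ i, 0 < (z i).im ∧ J (z i) = t i) → Free δ w z)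
      ((δ + 2) ^ C) (q + 2) := by
    intro N H hN ε hε
    obtain ⟨S, hS, hS2⟩ := hC δ N H hN w ε hε
    refine ⟨S, hS, fun t ht hinj z hz K hK hKd P hP hP0 => ?_⟩
    exact hS2 t hinj (fun i => ht (t i) ⟨i, rfl⟩) z hz K hK hKd P hP hP0
  have h1 := hK hw X hX
  push_cast at h1
  refine le_trans ?_ h1
  have hsub : (Icc 1 X).filter (fun n => ¬ GoodWindow k δ w θ n) ⊆ (Icc 1 X).filter fun n => ¬ GoodNear
      (fun t : Fin k → ℤ => Set.range t)
      (fun t => Function.Injective t → ∀ z : Fin k → ℂ, (∀ i, 0 < (z i).im ∧ J (z i) = t i) → Free δ w z) θ n := by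
    intro n hn
    rw [mem_filter] at hn ⊢
    refine ⟨hn.1, fun h => hn.2 fun ε hε t hinj ht z hz => h ε hε t ?_ hinj z hz⟩
    rintro x ⟨i, rfl⟩
    exact ht i
  exact_mod_cast card_le_card hsub

theorem exponent_nonneg (δ C : ℕ) {θ : ℝ} (hθ : 0 ≤ θ) : 0 ≤ 1 - 1 / (2 * ((δ : ℝ) + 2) ^ C) + θ := by
  have h1 : (1 : ℝ) ≤ ((δ : ℝ) + 2) ^ C := one_le_pow₀ (by linarith [(Nat.cast_nonneg δ : (0 : ℝ) ≤ δ)])
  have h2 : 1 / (2 * ((δ : ℝ) + 2) ^ C) ≤ 1 := by
    rw [div_le_one (by positivity)]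
    linarith
  linarith

end Pool.Agent.J6H45.WF
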