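import Pool.Agent.Results.MP_1e27bd_ag.ModularProducts
import Pool.Agent.J6H45.WF.Few
import Pool.Agent.J6H45.WF.Tr

/-!
# The hyperbolic analytic subspace conjecture for products of modular curves: almost all windows have no exceptions
-/

set_option autoImplicit false

open Finset

namespace Pool.Agent.J6H45.WF.P

open Pool.Agent.Results.MP_47914d_nt.GrowingDegreeIsogenies (J)
open Pool.Agent.Results.MP_1e27bd_ag.ModularProducts

/-- For all distinct integers `m_1, …, m_k` in the window of radius `N ^ θ` around `N`, or around `-N`, all points `v_s` with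
`j(v_s) = m_s`, and all points `τ` of `ℍ^n` each coordinate of which is isogenous to one of the `v_s`: the space
`Tangent o τ` contains `point o τ` and is rational for both structures, and it is contained in all the subspaces `V` which
contain `point o τ` and are rational for the arithmetic structure over some number field of degree at most `D`. -/
def GoodWindow (k : ℕ) {n : ℕ} (D : ℕ) (o c : Fin n → ℂ) (θ : ℝ) (N : ℕ) : Prop :=
  ∀ ε : ℤ, (ε = 1 ∨ ε = -1) → ∀ m : Fin k → ℤ, Function.Injective m →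
    (∀ s, |((ε * m s : ℤ) : ℝ) - N| ≤ (N : ℝ) ^ θ) →
    ∀ v : Fin k → ℂ, (∀ s, 0 < (v s).im ∧ J (v s) = m s) →
    ∀ (κ : Fin n → Fin k) (τ : Fin n → ℂ), (∀ i, Isogenous (v (κ i)) (τ i)) →
      point o τ ∈ Tangent o τ ∧ Rational Qbar c (Tangent o τ) ∧ Rational Qbar (fun _ => 1) (Tangent o τ) ∧
      ∀ K : IntermediateField ℚ ℂ, FiniteDimensional ℚ K → Module.finrank ℚ K ≤ D →
        ∀ V : Submodule ℂ (Fin n → ℂ), Rational (K : Set ℂ) c V → point o τ ∈ V → Tangent o τ ≤ V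

open Classical in
theorem sparse_P (n k : ℕ) : ∃ C : ℕ, ∀ (D : ℕ) (θ : ℝ), 0 ≤ θ → ∃ K : ℝ, ∀ o c : Fin n → ℂ, (∀ i, Special (o i)) →
    (∀ i, c i ≠ 0) → Compatible o c → Sparse K (1 - 1 / (2 * ((D : ℝ) + 2) ^ C) + θ) (GoodWindow k D o c θ) := by
  obtain ⟨C, hC⟩ := Pool.Agent.Results.MP_1e27bd_ag.ModularProducts.result n k
  refine ⟨C, fun D θ hθ => ?_⟩
  obtain ⟨K, hK0, hK⟩ := few ((D + 2) ^ C) (n + 2) (Nat.one_le_pow _ _ (by omega)) θ hθ
  refine ⟨K, fun o c ho hc hcomp X hX => ?_⟩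
  have hw : Windows (fun t : Fin k → ℤ => Set.range t)
      (fun m => Function.Injective m → ∀ v : Fin k → ℂ, (∀ s, 0 < (v s).im ∧ J (v s) = m s) →
        ∀ (κ : Fin n → Fin k) (τ : Fin n → ℂ), (∀ i, Isogenous (v (κ i)) (τ i)) →
          point o τ ∈ Tangent o τ ∧ Rational Qbar c (Tangent o τ) ∧ Rational Qbar (fun _ => 1) (Tangent o τ) ∧
          ∀ K : IntermediateField ℚ ℂ, FiniteDimensional ℚ K → Module.finrank ℚ K ≤ D →
            ∀ V : Submodule ℂ (Fin n → ℂ), Rational (K : Set ℂ) c V → point o τ ∈ V → Tangent o τ ≤ V)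
      ((D + 2) ^ C) (n + 2) := by
    intro N H hN ε hε
    obtain ⟨S, hS, hS2⟩ := hC D N H hN o c ho hc hcomp ε hε
    exact ⟨S, hS, fun t ht hinj => hS2 t hinj fun i => ht (t i) ⟨i, rfl⟩⟩
  have h1 := hK hw X hX
  push_cast at h1
  refine le_trans ?_ h1
  have hsub : (Icc 1 X).filter (fun N => ¬ GoodWindow k D o c θ N) ⊆ (Icc 1 X).filter fun N => ¬ GoodNear
      (fun t : Fin k → ℤ => Set.range t)
      (fun m => Function.Injective m → ∀ v : Fin k → ℂ, (∀ s, 0 < (v s).im ∧ J (v s) = m s) →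
        ∀ (κ : Fin n → Fin k) (τ : Fin n → ℂ), (∀ i, Isogenous (v (κ i)) (τ i)) →
          point o τ ∈ Tangent o τ ∧ Rational Qbar c (Tangent o τ) ∧ Rational Qbar (fun _ => 1) (Tangent o τ) ∧
          ∀ K : IntermediateField ℚ ℂ, FiniteDimensional ℚ K → Module.finrank ℚ K ≤ D →
            ∀ V : Submodule ℂ (Fin n → ℂ), Rational (K : Set ℂ) c V → point o τ ∈ V → Tangent o τ ≤ V) θ N := by
    intro N hN
    rw [mem_filter] at hN ⊢
    refine ⟨hN.1, fun h => hN.2 fun ε hε t hinj ht => h ε hε t ?_ hinj⟩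
    rintro x ⟨i, rfl⟩
    exact ht i
  exact_mod_cast card_le_card hsub

theorem exponent_nonneg (D C : ℕ) {θ : ℝ} (hθ : 0 ≤ θ) : 0 ≤ 1 - 1 / (2 * ((D : ℝ) + 2) ^ C) + θ := by
  have h1 : (1 : ℝ) ≤ ((D : ℝ) + 2) ^ C := one_le_pow₀ (by linarith [(Nat.cast_nonneg D : (0 : ℝ) ≤ D)])
  have h2 : 1 / (2 * ((D : ℝ) + 2) ^ C) ≤ 1 := by
    rw [div_le_one (by positivity)]
    linarith
  linarith

end Pool.Agent.J6H45.WF.P
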