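import Pool.Agent.N671.DA.Tup
import Pool.Agent.J6H45.WF.Tr

/-!
# Values of polynomials at the approximation vectors of systems of linear forms
-/

set_option autoImplicit false

open Finset

namespace Pool.Agent.J6H45.WF

open Pool.Agent.N671.DA (Near Thin approx_vectors)

open Classical in
/-- the number of the zeros of a polynomial in a box -/
lemma zeros_box {k : ℕ} (hk : 1 ≤ k) {F : MvPolynomial (Fin k) ℤ} (hF : F ≠ 0) (T : ℕ) :
    ((((Fintype.piFinset fun _ : Fin k => Finset.Icc (-(T : ℤ)) T).filter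
      fun v => MvPolynomial.eval v F = 0).card : ℕ) : ℝ) ≤ F.totalDegree * (2 * (T : ℝ) + 1) ^ (k - 1) := by
  have h1 := MvPolynomial.schwartz_zippel_totalDegree hF (Finset.Icc (-(T : ℤ)) T)
  have hN : (Finset.Icc (-(T : ℤ)) T).card = 2 * T + 1 := by
    rw [Int.card_Icc]
    omega
  rw [hN] at h1
  have hpos : (0 : NNRat) < ((2 * T + 1 : ℕ) : NNRat) := by positivity
  rw [div_le_div_iff₀ (pow_pos hpos k) hpos] at h1
  have h2 : (((Fintype.piFinset fun _ : Fin k => Finset.Icc (-(T : ℤ)) T).filter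
      fun v => MvPolynomial.eval v F = 0).card) * (2 * T + 1) ≤ F.totalDegree * (2 * T + 1) ^ k := by
    have h3 : ((((Fintype.piFinset fun _ : Fin k => Finset.Icc (-(T : ℤ)) T).filter
      fun v => MvPolynomial.eval v F = 0).card * (2 * T + 1) : ℕ) : NNRat) ≤
        ((F.totalDegree * (2 * T + 1) ^ k : ℕ) : NNRat) := by
      push_cast
      push_cast at h1
      convert h1
    exact_mod_cast h3
  obtain ⟨j, rfl⟩ : ∃ j, k = j + 1 := ⟨k - 1, by omega⟩
  rw [pow_succ, ← mul_assoc] at h2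
  have h3 := Nat.le_of_mul_le_mul_right h2 (by omega)
  rw [Nat.add_sub_cancel]
  exact_mod_cast h3

/-- the size of the values of a polynomial in a box -/
lemma eval_bound {k : ℕ} (F : MvPolynomial (Fin k) ℤ) : ∃ B : ℝ, 1 ≤ B ∧ ∀ (X : ℝ), 1 ≤ X → ∀ v : Fin k → ℤ,
    (∀ i, |(v i : ℝ)| ≤ X) → |((MvPolynomial.eval v F : ℤ) : ℝ)| ≤ B * X ^ F.totalDegree := by
  refine ⟨1 + ∑ s ∈ F.support, |((F.coeff s : ℤ) : ℝ)|, ?_, fun X hX v hv => ?_⟩
  · have : 0 ≤ ∑ s ∈ F.support, |((F.coeff s : ℤ) : ℝ)| := sum_nonneg fun _ _ => abs_nonneg _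
    linarith
  have h1 : ((MvPolynomial.eval v F : ℤ) : ℝ) = ∑ s ∈ F.support, ((F.coeff s : ℤ) : ℝ) * ∏ i, ((v i : ℝ)) ^ (s i) := by
    rw [MvPolynomial.eval_eq']
    push_cast
    rfl
  have h0 : 0 ≤ ∑ s ∈ F.support, |((F.coeff s : ℤ) : ℝ)| := sum_nonneg fun _ _ => abs_nonneg _
  have h2 : |((MvPolynomial.eval v F : ℤ) : ℝ)| ≤ (∑ s ∈ F.support, |((F.coeff s : ℤ) : ℝ)|) * X ^ F.totalDegree := by
    rw [h1, sum_mul]
    refine (abs_sum_le_sum_abs _ _).trans (sum_le_sum fun s hs => ?_)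
    rw [abs_mul]
    refine mul_le_mul_of_nonneg_left ?_ (abs_nonneg _)
    rw [abs_prod]
    calc ∏ i, |((v i : ℝ)) ^ (s i)| ≤ ∏ i, X ^ (s i) := by
          refine prod_le_prod (fun _ _ => abs_nonneg _) fun i _ => ?_
          rw [abs_pow]
          exact pow_le_pow_left₀ (abs_nonneg _) (hv i) _
      _ = X ^ (∑ i, s i) := (prod_pow_eq_pow_sum _ _ _)
      _ ≤ X ^ F.totalDegree := by
          refine pow_le_pow_right₀ hX ?_
          have := MvPolynomial.le_totalDegree hs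
          rwa [Finsupp.sum_fintype _ _ (fun _ => rfl)] at this
  have h3 : (0 : ℝ) ≤ X ^ F.totalDegree := by positivity
  nlinarith

/-- The vectors at which a nonconstant polynomial has a bad value are thin. -/
theorem thin_poly {k : ℕ} (hk : 1 ≤ k) {s : ℝ} (hs : 0 ≤ s) {Good : ℕ → Prop}
    (h : ∀ δ : ℝ, 0 < δ → ∃ C : ℝ, Sparse C (s + δ) Good) (F : MvPolynomial (Fin k) ℤ) {D : ℕ}
    (h1 : 1 ≤ F.totalDegree) (hD : F.totalDegree ≤ D) :
    Thin {v : Fin k → ℤ | MvPolynomial.eval v F = 0 ∨ ¬ Good (MvPolynomial.eval v F).natAbs}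
      ((k : ℝ) - 1 + D * s) := by
  classical
  intro ε hε
  set d := F.totalDegree with hd
  have hd0 : (0 : ℝ) < d := by exact_mod_cast h1
  obtain ⟨B, hB1, hB⟩ := eval_bound F
  obtain ⟨C, hC⟩ := h (ε / d) (by positivity)
  refine ⟨(2 * |C| + 1) * B ^ (s + ε / d) * (d * 3 ^ (k - 1)), fun X hX => ?_⟩
  have hX0 : (0 : ℝ) < X := by linarith
  set T : ℕ := ⌊X⌋₊ with hT
  have hTX : (T : ℝ) ≤ X := Nat.floor_le hX0.le
  set M : ℕ := ⌊B * X ^ d⌋₊ with hM
  have hBX : 1 ≤ B * X ^ d := by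
    have : 1 ≤ X ^ d := one_le_pow₀ hX
    nlinarith
  have hM1 : 1 ≤ M := Nat.le_floor (by exact_mod_cast hBX)
  have hMX : (M : ℝ) ≤ B * X ^ d := Nat.floor_le (by linarith)
  set Bd : Finset ℤ := (Finset.Icc (-(M : ℤ)) M).filter fun x => x = 0 ∨ ¬ Good x.natAbs with hBd
  set W : Finset ℕ := (Finset.Icc 1 M).filter fun n => ¬ Good n with hW
  have hBdW : Bd ⊆ {0} ∪ (W.image fun n : ℕ => (n : ℤ)) ∪ W.image fun n : ℕ => -(n : ℤ) := by
    intro x hx
    rw [hBd, mem_filter, Finset.mem_Icc] at hx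
    obtain ⟨⟨h1, h2⟩, h3⟩ := hx
    by_cases h0 : x = 0
    · simp [h0]
    · have h4 : ¬ Good x.natAbs := h3.resolve_left h0
      have h5 : x.natAbs ∈ W := by
        rw [hW, mem_filter, Finset.mem_Icc]
        exact ⟨⟨by omega, by omega⟩, h4⟩
      rcases Int.natAbs_eq x with h6 | h6
      · rw [mem_union, mem_union]
        exact Or.inl (Or.inr (mem_image.2 ⟨_, h5, h6.symm⟩))
      · rw [mem_union]
        exact Or.inr (mem_image.2 ⟨_, h5, h6.symm⟩)
  have hse : 0 ≤ s + ε / d := by positivity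
  have hM0 : (1 : ℝ) ≤ M := by exact_mod_cast hM1
  have hWc : (W.card : ℝ) ≤ |C| * (M : ℝ) ^ (s + ε / d) := by
    refine le_trans (by exact hC M hM1) ?_
    exact mul_le_mul_of_nonneg_right (le_abs_self _) (by positivity)
  have hMs : (1 : ℝ) ≤ (M : ℝ) ^ (s + ε / d) := Real.one_le_rpow hM0 hse
  have hBc : (Bd.card : ℝ) ≤ (2 * |C| + 1) * (M : ℝ) ^ (s + ε / d) := by
    have h1 : Bd.card ≤ 1 + W.card + W.card := by
      refine (card_le_card hBdW).trans ((card_union_le _ _).trans ?_)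
      refine add_le_add ((card_union_le _ _).trans (add_le_add (by simp) card_image_le)) card_image_le
    have h2 : (Bd.card : ℝ) ≤ 1 + W.card + W.card := by exact_mod_cast h1
    nlinarith
  have hsub : {q : Fin k → ℤ | q ∈ {v : Fin k → ℤ | MvPolynomial.eval v F = 0 ∨
      ¬ Good (MvPolynomial.eval v F).natAbs} ∧ ∀ i, |(q i : ℝ)| ≤ X} ⊆
      ((Bd.biUnion fun t => (Fintype.piFinset fun _ : Fin k => Finset.Icc (-(T : ℤ)) T).filter
        fun v => MvPolynomial.eval v (F - MvPolynomial.C t) = 0 : Finset (Fin k → ℤ)) : Set (Fin k → ℤ)) := by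
    rintro q ⟨h2, h3⟩
    rw [mem_coe, mem_biUnion]
    refine ⟨MvPolynomial.eval q F, ?_, ?_⟩
    · rw [hBd, mem_filter, Finset.mem_Icc]
      refine ⟨?_, h2⟩
      have h4 := hB X hX q h3
      have h5 : ((MvPolynomial.eval q F).natAbs : ℝ) ≤ B * X ^ d := by
        rw [Nat.cast_natAbs, Int.cast_abs]
        exact h4
      have h6 : (MvPolynomial.eval q F).natAbs ≤ M := Nat.le_floor h5
      constructor <;> omega
    · rw [mem_filter, Fintype.mem_piFinset]
      refine ⟨fun i => ?_, ?_⟩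
      · have h4 : ((q i).natAbs : ℝ) ≤ X := by
          rw [Nat.cast_natAbs, Int.cast_abs]
          exact h3 i
        have h5 : (q i).natAbs ≤ T := Nat.le_floor h4
        rw [Finset.mem_Icc]
        constructor <;> omega
      · rw [map_sub, MvPolynomial.eval_C, sub_self]
  have hcard : ∀ t : ℤ, ((((Fintype.piFinset fun _ : Fin k => Finset.Icc (-(T : ℤ)) T).filter
      fun v => MvPolynomial.eval v (F - MvPolynomial.C t) = 0).card : ℕ) : ℝ) ≤ d * (3 ^ (k - 1) * X ^ ((k : ℝ) - 1)) := by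
    intro t
    have hne : F - MvPolynomial.C t ≠ 0 := by
      intro h0
      have h2 : F = MvPolynomial.C t := sub_eq_zero.1 h0
      have h3 : d = 0 := by
        rw [hd, h2, MvPolynomial.totalDegree_C]
      omega
    have hdeg : (F - MvPolynomial.C t).totalDegree ≤ d := by
      refine (MvPolynomial.totalDegree_sub _ _).trans ?_
      rw [MvPolynomial.totalDegree_C, max_eq_left (Nat.zero_le _)]
    refine (zeros_box hk hne T).trans ?_
    have h4 : (2 * (T : ℝ) + 1) ^ (k - 1) ≤ 3 ^ (k - 1) * X ^ ((k : ℝ) - 1) := by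
      have h5 : X ^ ((k : ℝ) - 1) = X ^ (k - 1) := by
        rw [← Real.rpow_natCast, Nat.cast_sub hk, Nat.cast_one]
      rw [h5, ← mul_pow]
      exact pow_le_pow_left₀ (by positivity) (by linarith) _
    exact mul_le_mul (by exact_mod_cast hdeg) h4 (by positivity) (by positivity)
  have h2 := Set.ncard_le_ncard hsub (finite_toSet _)
  rw [Set.ncard_coe_finset] at h2
  have h3 : ((Bd.biUnion fun t => (Fintype.piFinset fun _ : Fin k => Finset.Icc (-(T : ℤ)) T).filter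
        fun v => MvPolynomial.eval v (F - MvPolynomial.C t) = 0).card : ℝ) ≤
      Bd.card * (d * (3 ^ (k - 1) * X ^ ((k : ℝ) - 1))) := by
    have h4 : ((Bd.biUnion fun t => (Fintype.piFinset fun _ : Fin k => Finset.Icc (-(T : ℤ)) T).filter
        fun v => MvPolynomial.eval v (F - MvPolynomial.C t) = 0).card : ℝ) ≤
        ∑ t ∈ Bd, ((((Fintype.piFinset fun _ : Fin k => Finset.Icc (-(T : ℤ)) T).filter
      fun v => MvPolynomial.eval v (F - MvPolynomial.C t) = 0).card : ℕ) : ℝ) := by exact_mod_cast card_biUnion_le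
    refine h4.trans ((sum_le_sum fun t _ => hcard t).trans ?_)
    rw [sum_const, nsmul_eq_mul]
  have h5 : (M : ℝ) ^ (s + ε / d) ≤ B ^ (s + ε / d) * X ^ (d * s + ε) := by
    refine (Real.rpow_le_rpow (by positivity) hMX hse).trans (le_of_eq ?_)
    rw [Real.mul_rpow (by linarith) (by positivity), ← Real.rpow_natCast X d, ← Real.rpow_mul hX0.le]
    congr 2
    field_simp
  have hB0 : 0 < B := by linarith
  calc _ ≤ ((Bd.biUnion fun t => (Fintype.piFinset fun _ : Fin k => Finset.Icc (-(T : ℤ)) T).filter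
        fun v => MvPolynomial.eval v (F - MvPolynomial.C t) = 0).card : ℝ) := by exact_mod_cast h2
    _ ≤ Bd.card * (d * (3 ^ (k - 1) * X ^ ((k : ℝ) - 1))) := h3
    _ ≤ ((2 * |C| + 1) * (B ^ (s + ε / d) * X ^ (d * s + ε))) * (d * (3 ^ (k - 1) * X ^ ((k : ℝ) - 1))) := by
        refine mul_le_mul_of_nonneg_right (hBc.trans ?_) (by positivity)
        exact mul_le_mul_of_nonneg_left h5 (by positivity)
    _ = (2 * |C| + 1) * B ^ (s + ε / d) * (d * 3 ^ (k - 1)) * (X ^ (d * s + ε) * X ^ ((k : ℝ) - 1)) := by ring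
    _ = (2 * |C| + 1) * B ^ (s + ε / d) * (d * 3 ^ (k - 1)) * X ^ ((k : ℝ) - 1 + d * s + ε) := by
        rw [← Real.rpow_add hX0]
        congr 2
        ring
    _ ≤ (2 * |C| + 1) * B ^ (s + ε / d) * (d * 3 ^ (k - 1)) * X ^ ((k : ℝ) - 1 + D * s + ε) := by
        refine mul_le_mul_of_nonneg_left ?_ (by positivity)
        refine Real.rpow_le_rpow_of_exponent_le hX ?_
        have h6 : (d : ℝ) * s ≤ D * s := mul_le_mul_of_nonneg_right (by exact_mod_cast hD) hs
        linarith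

lemma countable_poly (k : ℕ) : Countable (MvPolynomial (Fin k) ℤ) := by
  rw [← Cardinal.mk_le_aleph0_iff]
  refine (MvPolynomial.cardinalMk_le_max).trans ?_
  simp

/-- **Values of polynomials at approximation vectors** -/
theorem approx_poly {k : ℕ} (hk : 1 ≤ k) {s : ℝ} (hs : 0 ≤ s) {Good : ℕ → Prop}
    (h : ∀ δ : ℝ, 0 < δ → ∃ C : ℝ, Sparse C (s + δ) Good) (D : ℕ) {r : ℕ} (γ : Fin r → ℝ) {τ : ℝ} (hτ : 0 < τ) :
    ∃ S : Set (Fin k × Fin r → ℝ),
      dimH S ≤ ENNReal.ofReal (((k : ℝ) - 1) * r + (r + ((k : ℝ) - 1 + D * s)) / (1 + τ)) ∧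
      ∀ α, α ∉ S → ∀ F : MvPolynomial (Fin k) ℤ, 1 ≤ F.totalDegree → F.totalDegree ≤ D → ∀ c : ℝ, ∃ Q : ℝ,
        ∀ v : Fin k → ℤ, Q ≤ ‖v‖ → Near α γ v (c * ‖v‖ ^ (-τ)) →
          MvPolynomial.eval v F ≠ 0 ∧ Good (MvPolynomial.eval v F).natAbs := by
  have hk1 : (1 : ℝ) ≤ k := by exact_mod_cast hk
  have key := fun F : {F : MvPolynomial (Fin k) ℤ // 1 ≤ F.totalDegree ∧ F.totalDegree ≤ D} =>
    approx_vectors (m := r) hk _ (s := (k : ℝ) - 1 + D * s) (by
      have : (0 : ℝ) ≤ D * s := by positivity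
      linarith) (thin_poly hk hs h F.1 F.2.1 F.2.2) γ hτ
  choose S hS hS2 using key
  have : Countable (MvPolynomial (Fin k) ℤ) := countable_poly k
  refine ⟨⋃ F, S F, ?_, fun α hα F h1 h2 c => ?_⟩
  · rw [dimH_iUnion]
    exact iSup_le hS
  · have hαF : α ∉ S ⟨F, h1, h2⟩ := fun hcon => hα (Set.mem_iUnion.2 ⟨_, hcon⟩)
    obtain ⟨Q, hQ⟩ := hS2 ⟨F, h1, h2⟩ α hαF c
    refine ⟨Q, fun v hv h3 => ?_⟩
    have h4 := hQ v hv h3
    simp only [Set.mem_ofPred_eq, not_or, not_not] at h4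
    exact h4

end Pool.Agent.J6H45.WF
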