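import Pool.Agent.J6H45.WF.Dyad
import Pool.Agent.Results.MP_16912e_nt.QuadraticShortIntervals

/-!
# The quadratic fields with large torsion of the class group are sparse
-/

set_option autoImplicit false

open Finset Filter NumberField

namespace Pool.Agent.J6H45.WF

/-- For all quadratic fields with discriminant `n` or `-n` the number of the ideal classes killed by `l` is at most
`n ^ (1 / 2 - c)`. -/
def TorsionAt (l : ℕ) (c : ℝ) (n : ℕ) : Prop :=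
  ∀ (K : Type) [Field K] [NumberField K], Module.finrank ℚ K = 2 → (discr K).natAbs = n →
    (Nat.card {x : ClassGroup (𝓞 K) // x ^ l = 1} : ℝ) ≤ (n : ℝ) ^ (1 / 2 - c)

theorem sparse_torsion {l r : ℕ} (hl : 1 ≤ l) (hr : 1 ≤ r) (h7 : 7 * r ≤ 2 * l) {c : ℝ} (hc : 0 ≤ c) (hc2 : c ≤ 1 / 2)
    {s : ℝ} (hs : 1 - r * (3 / (2 * ((l : ℝ) + r)) - c) < s) : ∃ K : ℝ, Sparse K s (TorsionAt l c) := by
  classical
  have hl1 : (1 : ℝ) ≤ l := by exact_mod_cast hl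
  have hr1 : (1 : ℝ) ≤ r := by exact_mod_cast hr
  have h7' : (7 : ℝ) * r ≤ 2 * l := by exact_mod_cast h7
  have hlr : (0 : ℝ) < 2 * ((l : ℝ) + r) := by linarith
  have hq : r * (3 / (2 * ((l : ℝ) + r))) ≤ 1 / 3 := by
    rw [mul_div_assoc', div_le_div_iff₀ hlr (by norm_num)]
    linarith
  have hs0 : 0 < s := by nlinarith
  obtain ⟨ε, hε⟩ : ∃ ε : ℝ, ε = (s - (1 - r * (3 / (2 * ((l : ℝ) + r)) - c))) / 2 := ⟨_, rfl⟩
  have hε0 : 0 < ε := by rw [hε]; linarith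
  obtain ⟨C, hC, -, h2⟩ := Pool.Agent.Results.MP_16912e_nt.QuadraticShortIntervals.result l r hl hr ε hε0
  have h2 := h2 h7
  obtain ⟨M, hM⟩ := eventually_atTop.1 (((tendsto_rpow_atTop hε0).comp tendsto_natCast_atTop_atTop).eventually_ge_atTop
    (C * 2 ^ ((1 / 2 - c) * (r : ℝ))))
  obtain ⟨K₀, hK₀⟩ := sparse_dyadic hs0 M
  refine ⟨K₀, hK₀ _ fun N hN hN1 => ?_⟩
  have hNr : (1 : ℝ) ≤ N := by exact_mod_cast hN1
  have hN0 : (0 : ℝ) < N := by linarith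
  -- the exceptional fields
  have hex : ∀ D : ℤ, ∃ (K : Type) (_ : Field K) (_ : NumberField K),
      (∃ (K' : Type) (_ : Field K') (_ : NumberField K'), Module.finrank ℚ K' = 2 ∧ discr K' = D ∧
        |(D : ℝ)| ^ (1 / 2 - c) < (Nat.card {x : ClassGroup (𝓞 K') // x ^ l = 1} : ℝ)) →
      (Module.finrank ℚ K = 2 ∧ discr K = D ∧
        |(D : ℝ)| ^ (1 / 2 - c) < (Nat.card {x : ClassGroup (𝓞 K) // x ^ l = 1} : ℝ)) := by
    intro D
    by_cases h : ∃ (K' : Type) (_ : Field K') (_ : NumberField K'), Module.finrank ℚ K' = 2 ∧ discr K' = D ∧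
        |(D : ℝ)| ^ (1 / 2 - c) < (Nat.card {x : ClassGroup (𝓞 K') // x ^ l = 1} : ℝ)
    · obtain ⟨K', i1, i2, h⟩ := h
      exact ⟨K', i1, i2, fun _ => h⟩
    · exact ⟨ℚ, inferInstance, inferInstance, fun h' => absurd h' h⟩
  choose K iF iN hK using hex
  set S : Finset ℤ := (Icc (-(N : ℤ)) N).filter fun D => N < 2 * D.natAbs ∧
    ∃ (K' : Type) (_ : Field K') (_ : NumberField K'), Module.finrank ℚ K' = 2 ∧ discr K' = D ∧
      |(D : ℝ)| ^ (1 / 2 - c) < (Nat.card {x : ClassGroup (𝓞 K') // x ^ l = 1} : ℝ) with hS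
  have hcard : (((Icc 1 N).filter fun n => N < 2 * n ∧ ¬ TorsionAt l c n).card : ℝ) ≤ S.card := by
    have hsub : (Icc 1 N).filter (fun n => N < 2 * n ∧ ¬ TorsionAt l c n) ⊆ S.image Int.natAbs := by
      intro n hn
      rw [mem_filter, mem_Icc] at hn
      obtain ⟨⟨hn1, hnN⟩, hn2, hn3⟩ := hn
      unfold TorsionAt at hn3
      push Not at hn3
      obtain ⟨K', i1, i2, hK1, hK2, hK3⟩ := hn3
      have hD : |((discr K' : ℤ) : ℝ)| = n := by
        rw [← hK2, ← Int.cast_abs, Int.abs_eq_natAbs]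
        simp
      rw [mem_image]
      refine ⟨discr K', ?_, hK2⟩
      rw [hS, mem_filter, mem_Icc]
      refine ⟨?_, by rw [hK2]; exact hn2, K', i1, i2, hK1, rfl, by rw [hD]; exact hK3⟩
      rw [← abs_le, Int.abs_eq_natAbs, hK2]
      exact_mod_cast hnN
    exact_mod_cast (card_le_card hsub).trans card_image_le
  have hSm : ∀ D ∈ S, |(D : ℝ)| ≤ N ∧ (N : ℝ) / 2 ≤ |(D : ℝ)| ∧
      (Module.finrank ℚ (K D) = 2 ∧ discr (K D) = D ∧
        |(D : ℝ)| ^ (1 / 2 - c) < (Nat.card {x : ClassGroup (𝓞 (K D)) // x ^ l = 1} : ℝ)) := by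
    intro D hD
    rw [hS, mem_filter, mem_Icc] at hD
    obtain ⟨h3, h4, h5⟩ := hD
    refine ⟨?_, ?_, hK D h5⟩
    · have h6 := abs_le.2 h3
      exact_mod_cast h6
    · have h6 : (N : ℝ) ≤ 2 * |(D : ℝ)| := by
        rw [← Int.cast_abs, Int.abs_eq_natAbs]
        exact_mod_cast h4.le
      linarith
  have h3 := h2 (N : ℝ) hNr S K (fun D hD => ⟨(hSm D hD).1, (hSm D hD).2.2.1, (hSm D hD).2.2.2.1⟩)
  have h4 : (S.card : ℝ) * (((N : ℝ) / 2) ^ (1 / 2 - c)) ^ r ≤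
      ∑ D ∈ S, (Nat.card {c : ClassGroup (𝓞 (K D)) // c ^ l = 1} : ℝ) ^ r := by
    rw [← nsmul_eq_mul]
    refine card_nsmul_le_sum _ _ _ fun D hD => ?_
    refine pow_le_pow_left₀ (by positivity) ?_ r
    refine le_trans ?_ (hSm D hD).2.2.2.2.le
    exact Real.rpow_le_rpow (by positivity) (hSm D hD).2.1 (by linarith)
  have h5 : (((N : ℝ) / 2) ^ (1 / 2 - c)) ^ r = (N : ℝ) ^ ((1 / 2 - c) * (r : ℝ)) / 2 ^ ((1 / 2 - c) * (r : ℝ)) := by
    rw [← Real.rpow_natCast, ← Real.rpow_mul (by positivity), Real.div_rpow hN0.le (by norm_num)]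
  have h6 : (0 : ℝ) < (2 : ℝ) ^ ((1 / 2 - c) * (r : ℝ)) := by positivity
  have h7 : (0 : ℝ) < (N : ℝ) ^ ((1 / 2 - c) * (r : ℝ)) := by positivity
  have h8 : (S.card : ℝ) ≤ C * 2 ^ ((1 / 2 - c) * (r : ℝ)) * (N : ℝ) ^ (s - ε) := by
    have h9 := h4.trans h3
    rw [h5] at h9
    have e1 : (N : ℝ) ^ (1 + (r : ℝ) / 2 - 3 * (r : ℝ) / (2 * ((l : ℝ) + r)) + ε) =
        (N : ℝ) ^ (s - ε) * (N : ℝ) ^ ((1 / 2 - c) * (r : ℝ)) := by
      rw [← Real.rpow_add hN0]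
      congr 1
      have e2 : s = 2 * ε + (1 - r * (3 / (2 * ((l : ℝ) + r)) - c)) := by rw [hε]; ring
      rw [e2]
      ring
    rw [e1] at h9
    have h10 : (S.card : ℝ) * (N : ℝ) ^ ((1 / 2 - c) * (r : ℝ)) ≤
        C * 2 ^ ((1 / 2 - c) * (r : ℝ)) * (N : ℝ) ^ (s - ε) * (N : ℝ) ^ ((1 / 2 - c) * (r : ℝ)) := by
      have h11 := mul_le_mul_of_nonneg_right h9 h6.le
      rw [mul_assoc, div_mul_cancel₀ _ h6.ne'] at h11
      linarith
    exact le_of_mul_le_mul_right h10 h7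
  refine hcard.trans (h8.trans ?_)
  have h9 : C * 2 ^ ((1 / 2 - c) * (r : ℝ)) ≤ (N : ℝ) ^ ε := hM N hN
  calc C * 2 ^ ((1 / 2 - c) * (r : ℝ)) * (N : ℝ) ^ (s - ε) ≤ (N : ℝ) ^ ε * (N : ℝ) ^ (s - ε) :=
        mul_le_mul_of_nonneg_right h9 (by positivity)
    _ = (N : ℝ) ^ s := by
        rw [← Real.rpow_add hN0]
        congr 1
        ring

end Pool.Agent.J6H45.WF
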